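import Pool.Agent.MP_cb8ad4_co.Defs

-- part MP_cb8ad4_co.Core
section

/-!
Suitable cores and their relation to suitable arrays.
-/

namespace Pool.Agent.MP_cb8ad4_co

open Finset

/-- Rows are given by key functions; every symbol precedes every set `T` of other symbols in at
least `t - |T|` rows. -/
def Core (t : ℕ) {X ρ β : Type} [LinearOrder β] (key : ρ → X → β) : Prop :=
  ∀ (σ : X) (T : Finset X), σ ∉ T →
    ∃ Q : Finset ρ, (∀ r ∈ Q, ∀ b ∈ T, key r σ < key r b) ∧ t ≤ T.card + Q.card

theorem array_to_core {N v t w : ℕ} (A : Fin N → Equiv.Perm (Fin v)) (hA : IsSuitable N v t A)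
    (hw : N + w ≤ v) (ht : t ≤ v) :
    ∃ key : Fin N → Fin w → Fin v, (∀ r, Function.Injective (key r)) ∧ Core t key := by
  classical
  rcases Nat.eq_zero_or_pos v with rfl | hv
  · have : w = 0 := by omega
    subst this
    exact ⟨fun _ => id, fun _ => Function.injective_id, fun σ => σ.elim0⟩
  let ld : Fin N → Fin v := fun r => A r ⟨0, hv⟩
  let Y : Finset (Fin v) := univ \ univ.image ld
  have hY : w ≤ Y.card := by
    have h1 : (univ.image ld).card ≤ N := card_image_le.trans (by simp)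
    rw [card_sdiff_of_subset (subset_univ _)]
    simp only [card_univ, Fintype.card_fin]
    omega
  let f : Fin w ↪ Fin v := ((Fin.castLEEmb hY).trans Y.equivFin.symm.toEmbedding).trans
    (Function.Embedding.subtype _)
  have hf : ∀ a r, f a ≠ ld r := by
    intro a r h
    have : f a ∈ Y := (Y.equivFin.symm (Fin.castLE hY a)).2
    exact (mem_sdiff.1 this).2 (mem_image.2 ⟨r, mem_univ _, h.symm⟩)
  refine ⟨fun r x => (A r).symm (f x), fun r => (A r).symm.injective.comp f.injective, ?_⟩
  intro σ T hσ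
  set Q := univ.filter (fun r => ∀ b ∈ T, (A r).symm (f σ) < (A r).symm (f b)) with hQ
  refine ⟨Q, fun r hr => (mem_filter.1 hr).2, ?_⟩
  by_contra hc
  have hlt : T.card + Q.card < t := not_le.1 hc
  have h1 : T.map f ∪ Q.image ld ⊆ univ.erase (f σ) := by
    intro x hx
    refine mem_erase.2 ⟨?_, mem_univ _⟩
    rintro rfl
    rcases mem_union.1 hx with hx | hx
    · exact hσ ((mem_map' f).1 hx)
    · obtain ⟨r, -, hr⟩ := mem_image.1 hx
      exact hf σ r hr.symm
  have h2 : (T.map f ∪ Q.image ld).card ≤ t - 1 := by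
    have := card_union_le (T.map f) (Q.image ld)
    have h3 : (Q.image ld).card ≤ Q.card := card_image_le
    rw [card_map] at this
    omega
  obtain ⟨S, hS1, hS2, hS3⟩ := exists_subsuperset_card_eq h1 h2 (by
    rw [card_erase_of_mem (mem_univ _)]
    simp only [card_univ, Fintype.card_fin]
    omega)
  obtain ⟨r, hr⟩ := hA (f σ) S (fun h => (mem_erase.1 (hS2 h)).1 rfl) hS3
  have hrQ : r ∈ Q := mem_filter.2 ⟨mem_univ _, fun b hb =>
    hr _ (hS1 (mem_union_left _ (mem_map_of_mem f hb)))⟩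
  have := hr (ld r) (hS1 (mem_union_right _ (mem_image_of_mem _ hrQ)))
  simp only [ld, Equiv.symm_apply_apply] at this
  exact absurd this (by simp [Fin.lt_def])

lemma array_of_keys {N v t : ℕ} {α β : Type} [Fintype α] [LinearOrder β]
    (hv : Fintype.card α = v) (key : Fin N → α → β)
    (h : ∀ (a : α) (S : Finset α), a ∉ S → S.card = t - 1 → ∃ r, ∀ b ∈ S, key r a < key r b) :
    ∃ A : Fin N → Equiv.Perm (Fin v), IsSuitable N v t A := by
  classical
  let e : α ≃ Fin v := Fintype.equivFinOfCardEq hv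
  have hex : ∀ r, ∃ g : Fin v ≃ α, ∀ a b, key r a < key r b → g.symm a < g.symm b := by
    intro r
    let _ : LinearOrder α := LinearOrder.lift' (fun a => toLex (key r a, e a))
      (fun a b hab => e.injective (congrArg (fun p => (ofLex p).2) hab))
    refine ⟨(monoEquivOfFin α hv).toEquiv, fun a b hab => ?_⟩
    have : a < b := show toLex (key r a, e a) < toLex (key r b, e b) from
      Prod.Lex.toLex_lt_toLex.2 (Or.inl hab)
    exact (monoEquivOfFin α hv).symm.strictMono this
  choose g hg using hex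
  refine ⟨fun r => (g r).trans e, fun a S ha hS => ?_⟩
  obtain ⟨r, hr⟩ := h (e.symm a) (S.map e.symm.toEmbedding) (by simpa using ha)
    (by rw [card_map, hS])
  exact ⟨r, fun b hb => hg r _ _ (hr _ (mem_map_of_mem _ hb))⟩

theorem core_to_array {N w t : ℕ} {X ρ : Type} [Fintype X] [Fintype ρ] (key : ρ → X → ℕ)
    (hc : Core t key) (hN : Fintype.card ρ ≤ N) (hw : Fintype.card X = w) (ht : 1 ≤ t) :
    ∃ A : Fin N → Equiv.Perm (Fin (N + w)), IsSuitable N (N + w) t A := by
  classical
  obtain ⟨j⟩ : Nonempty (ρ ↪ Fin N) := Function.Embedding.nonempty_of_card_le (by simpa using hN)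
  let key0 : Fin N → X → ℕ := Function.extend j key 0
  have hkey0 : ∀ q, key0 (j q) = key q := fun q => j.injective.extend_apply _ _ q
  let key' : Fin N → Fin N ⊕ X → ℕ∞ := fun r a =>
    match a with
    | Sum.inl i => if i = r then 0 else ⊤
    | Sum.inr x => ((key0 r x + 1 : ℕ) : ℕ∞)
  refine array_of_keys (α := Fin N ⊕ X) (by simp [hw]) key' ?_
  rintro (i | x) S ha hS
  · refine ⟨i, ?_⟩
    rintro (i' | y) hb
    · have : i' ≠ i := by rintro rfl; exact ha hb
      simp [key', this]
    · simp [key']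
  · obtain ⟨Q, hQ, h1⟩ := hc x S.toRight (by simpa using ha)
    have h2 : S.toLeft.card + S.toRight.card = S.card := card_toLeft_add_card_toRight
    have h3 : S.toLeft.card < (Q.map j).card := by
      rw [card_map]
      omega
    obtain ⟨r, hr1, hr2⟩ := exists_mem_notMem_of_card_lt_card h3
    obtain ⟨q, hq, rfl⟩ := mem_map.1 hr1
    refine ⟨j q, ?_⟩
    rintro (i' | y) hb
    · have : i' ≠ j q := by rintro rfl; exact hr2 (by simpa using hb)
      simp only [key', this, if_false]
      exact ENat.natCast_lt_top _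
    · have := hQ q hq y (by simpa using hb)
      simp only [key', hkey0]
      exact_mod_cast Nat.succ_lt_succ this

theorem core_of_edges {X ρ : Type} [Fintype X] [DecidableEq X] [Fintype ρ] (key : ρ → X → ℕ)
    (first : ρ → X) (hfirst : ∀ r b, b ≠ first r → key r (first r) < key r b) (e : X → ℕ)
    (b0 t : ℕ) (ha : ∀ σ, b0 + e σ ≤ (univ.filter (fun r => first r = σ)).card)
    (hC : ∀ σ (U : Finset X), σ ∉ U → U.card = e σ + 1 →
      ∃ r, first r ∈ U ∧ ∀ b, b ∉ U → b ≠ σ → key r σ < key r b)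
    (ht : t + 1 ≤ b0 + Fintype.card X) : Core t key := by
  classical
  intro σ T hσ
  let E : Finset X → Finset ρ := fun U =>
    univ.filter (fun r => first r ∈ U ∧ ∀ b, b ∉ U → b ≠ σ → key r σ < key r b)
  have hE : ∀ U : Finset X, σ ∉ U → U.card ≤ e σ + (E U).card := by
    intro U
    induction U using Finset.strongInduction with
    | H U ih =>
      intro hU
      by_cases hle : U.card ≤ e σ
      · omega
      obtain ⟨U', hU', hcard⟩ := exists_subset_card_eq (s := U) (n := e σ + 1) (by omega)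
      obtain ⟨r, hr1, hr2⟩ := hC σ U' (fun h => hU (hU' h)) hcard
      have hx : first r ∈ U := hU' hr1
      have h1 := ih (U.erase (first r)) (erase_ssubset hx) (fun h => hU (mem_of_mem_erase h))
      have hrE : r ∈ E U := mem_filter.2 ⟨mem_univ _, hx, fun b hb => hr2 b (fun h => hb (hU' h))⟩
      have h2 : E (U.erase (first r)) ⊆ (E U).erase r := by
        intro q hq
        obtain ⟨-, hq1, hq2⟩ := mem_filter.1 hq
        refine mem_erase.2 ⟨?_, mem_filter.2 ⟨mem_univ _, mem_of_mem_erase hq1,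
          fun b hb => hq2 b (fun h => hb (mem_of_mem_erase h))⟩⟩
        rintro rfl
        exact (mem_erase.1 hq1).1 rfl
      have h3 := card_le_card h2
      rw [card_erase_of_mem hrE] at h3
      rw [card_erase_of_mem hx] at h1
      have h4 : 0 < (E U).card := card_pos.2 ⟨r, hrE⟩
      omega
  set U := (univ.erase σ) \ T with hU
  have hσU : σ ∉ U := fun h => (mem_erase.1 (mem_sdiff.1 h).1).1 rfl
  have hTsub : T ⊆ univ.erase σ := fun b hb => mem_erase.2 ⟨fun h => hσ (h ▸ hb), mem_univ _⟩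
  have hUcard : U.card + T.card + 1 = Fintype.card X := by
    rw [hU, card_sdiff_add_card_eq_card hTsub, card_erase_of_mem (mem_univ _), card_univ]
    have : 0 < Fintype.card X := Fintype.card_pos_iff.2 ⟨σ⟩
    omega
  have hdisj : Disjoint (univ.filter (fun r => first r = σ)) (E U) := by
    rw [disjoint_left]
    intro r h1 h2
    exact hσU ((mem_filter.1 h1).2 ▸ (mem_filter.1 h2).2.1)
  have hsub : ∀ r ∈ (univ.filter (fun r => first r = σ)) ∪ E U,
      ∀ b ∈ T, key r σ < key r b := by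
    intro r hr b hb
    have hbσ : b ≠ σ := fun h => hσ (h ▸ hb)
    rcases mem_union.1 hr with h | h
    · have := (mem_filter.1 h).2
      rw [← this] at hbσ ⊢
      exact hfirst r b hbσ
    · exact (mem_filter.1 h).2.2 b (fun h' => (mem_sdiff.1 h').2 hb) hbσ
  refine ⟨_, hsub, ?_⟩
  rw [card_union_of_disjoint hdisj]
  have h2 := hE U hσU
  have h3 := ha σ
  omega

end Pool.Agent.MP_cb8ad4_co

end

-- part MP_cb8ad4_co.Ramsey
section

/-!
Basic facts on three-colour Ramsey numbers.
-/

namespace Pool.Agent.MP_cb8ad4_co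

open Finset

variable {ι : Type}

/-- The defining property of the Ramsey number. -/
def Arrows (C : Finset ι) (m : ι → ℕ) (n : ℕ) : Prop :=
  ∀ c : Sym2 (Fin n) → ι, (∀ p, c p ∈ C) →
    ∃ i ∈ C, ∃ U : Finset (Fin n), U.card = m i ∧ ∀ x ∈ U, ∀ y ∈ U, x ≠ y → c s(x, y) = i

lemma ramsey_aux {X : Type} (C : Finset ι) (hC : C.card ≤ 3) (c : Sym2 X → ι)
    (hc : ∀ p, c p ∈ C) (n : ℕ) : ∀ (m : ι → ℕ) (V : Finset X), ∑ i ∈ C, m i = n →
      3 ^ n ≤ V.card → ∃ i ∈ C, ∃ U ⊆ V, U.card = m i + 1 ∧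
        ∀ x ∈ U, ∀ y ∈ U, x ≠ y → c s(x, y) = i := by
  classical
  induction n with
  | zero =>
    intro m V hm hV
    obtain ⟨x, hx⟩ := card_pos.1 (lt_of_lt_of_le (by norm_num) hV)
    have h0 : m (c s(x, x)) = 0 := (sum_eq_zero_iff.1 hm) _ (hc _)
    exact ⟨c s(x, x), hc _, {x}, by simpa using hx, by simp [h0], by simp⟩
  | succ n ih =>
    intro m V hm hV
    obtain ⟨x, hx⟩ := card_pos.1 (lt_of_lt_of_le (by positivity) hV)
    by_cases h0 : ∃ i ∈ C, m i = 0
    · obtain ⟨i, hi, h0⟩ := h0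
      exact ⟨i, hi, {x}, by simpa using hx, by simp [h0], by simp⟩
    push Not at h0
    have hpos : 1 ≤ 3 ^ n := Nat.one_le_pow _ _ (by norm_num)
    obtain ⟨i, hi, hlt⟩ := exists_lt_card_fiber_of_mul_lt_card_of_maps_to
      (s := V.erase x) (t := C) (f := fun y => c s(x, y)) (n := 3 ^ n - 1)
      (fun y _ => hc _) (by
        rw [card_erase_of_mem hx]
        have h1 : C.card * (3 ^ n - 1) ≤ 3 * (3 ^ n - 1) := Nat.mul_le_mul_right _ hC
        rw [pow_succ] at hV
        omega)
    have hmi := h0 i hi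
    obtain ⟨j, hj, U, hU, hcard, hmono⟩ := ih (Function.update m i (m i - 1))
      ((V.erase x).filter (fun y => c s(x, y) = i)) (by
        rw [sum_update_of_mem hi]
        rw [← add_sum_erase _ _ hi, ← sdiff_singleton_eq_erase] at hm
        omega) (by omega)
    have hUV : U ⊆ V := fun y hy => mem_of_mem_erase (mem_filter.1 (hU hy)).1
    by_cases hji : j = i
    · subst hji
      have hxU : x ∉ U := fun h => (mem_erase.1 (mem_filter.1 (hU h)).1).1 rfl
      refine ⟨j, hj, insert x U, insert_subset hx hUV, ?_, ?_⟩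
      · rw [card_insert_of_notMem hxU, hcard, Function.update_self]; omega
      · intro a ha b hb hab
        rcases mem_insert.1 ha with rfl | ha' <;> rcases mem_insert.1 hb with rfl | hb'
        · exact (hab rfl).elim
        · exact (mem_filter.1 (hU hb')).2
        · rw [Sym2.eq_swap]; exact (mem_filter.1 (hU ha')).2
        · exact hmono a ha' b hb' hab
    · exact ⟨j, hj, U, hUV, by rw [hcard, Function.update_of_ne hji], hmono⟩

lemma arrows_pow (C : Finset ι) (hC : C.card ≤ 3) (e : ι → ℕ) :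
    Arrows C (fun i => e i + 1) (3 ^ ∑ i ∈ C, e i) := by
  intro c hc
  obtain ⟨i, hi, U, -, h1, h2⟩ := ramsey_aux C hC c hc _ e univ rfl (by simp)
  exact ⟨i, hi, U, h1, h2⟩

lemma ramsey_le {C : Finset ι} {m : ι → ℕ} {n : ℕ} (h : Arrows C m n) : ramsey C m ≤ n :=
  Nat.sInf_le h

lemma ramsey_le_pow (C : Finset ι) (hC : C.card ≤ 3) (e : ι → ℕ) :
    ramsey C (fun i => e i + 1) ≤ 3 ^ ∑ i ∈ C, e i := ramsey_le (arrows_pow C hC e)

lemma arrows_ramsey (C : Finset ι) (hC : C.card ≤ 3) (e : ι → ℕ) :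
    Arrows C (fun i => e i + 1) (ramsey C (fun i => e i + 1)) :=
  Nat.sInf_mem (s := {n | Arrows C (fun i => e i + 1) n}) ⟨_, arrows_pow C hC e⟩

lemma Arrows.spec {X : Type} {C : Finset ι} {m : ι → ℕ} {n : ℕ} (h : Arrows C m n)
    (V : Finset X) (hV : n ≤ V.card) (c : Sym2 X → ι) (hc : ∀ p, c p ∈ C) :
    ∃ i ∈ C, ∃ U ⊆ V, U.card = m i ∧ ∀ x ∈ U, ∀ y ∈ U, x ≠ y → c s(x, y) = i := by
  classical
  let f : Fin n ↪ X := ((Fin.castLEEmb hV).trans V.equivFin.symm.toEmbedding).trans
    (Function.Embedding.subtype _)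
  have hf : ∀ a, f a ∈ V := fun a => (V.equivFin.symm (Fin.castLE hV a)).2
  obtain ⟨i, hi, U, h1, h2⟩ := h (fun p => c (p.map f)) (fun _ => hc _)
  refine ⟨i, hi, U.map f, ?_, by rw [card_map, h1], ?_⟩
  · intro x hx
    obtain ⟨a, -, rfl⟩ := mem_map.1 hx
    exact hf a
  · intro x hx y hy hxy
    obtain ⟨a, ha, rfl⟩ := mem_map.1 hx
    obtain ⟨b, hb, rfl⟩ := mem_map.1 hy
    exact h2 a ha b hb (fun h => hxy (by rw [h]))

lemma exists_colouring {C : Finset ι} {m : ι → ℕ} {n : ℕ} (h : n < ramsey C m) :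
    ∃ c : Sym2 (Fin n) → ι, (∀ p, c p ∈ C) ∧ ∀ i ∈ C, ∀ U : Finset (Fin n), U.card = m i →
      ∃ x ∈ U, ∃ y ∈ U, x ≠ y ∧ c s(x, y) ≠ i := by
  have h1 : ¬ Arrows C m n := Nat.notMem_of_lt_sInf h
  unfold Arrows at h1
  push Not at h1
  exact h1

lemma lt_ramsey (C : Finset ι) (hC : C.card ≤ 3) (e : ι → ℕ) {n : ℕ}
    (h : ¬ Arrows C (fun i => e i + 1) n) : n < ramsey C (fun i => e i + 1) := by
  by_contra hc
  apply h
  intro c hc'
  obtain ⟨i, hi, U, -, h1, h2⟩ := (arrows_ramsey C hC e).spec univ (by simpa using hc) c hc'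
  exact ⟨i, hi, U, h1, h2⟩

/-- Colouring everything with one colour gives the trivial lower bound. -/
lemma lt_ramsey_of_mem (C : Finset ι) (hC : C.card ≤ 3) (e : ι → ℕ) (he : ∀ i ∈ C, 1 ≤ e i)
    {j : ι} (hj : j ∈ C) : e j < ramsey C (fun i => e i + 1) := by
  apply lt_ramsey C hC e
  intro h
  obtain ⟨i, hi, U, h1, h2⟩ := h (fun _ => j) (fun _ => hj)
  have h3 := he i hi
  simp only at h1
  obtain ⟨x, hx, y, hy, hxy⟩ := one_lt_card.1 (show 1 < U.card by omega)
  have h4 : j = i := h2 x hx y hy hxy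
  subst h4
  have := card_le_univ U
  simp only [Fintype.card_fin] at this
  omega

/-- The probabilistic lower bound for three colours. -/
lemma not_arrows_of_sq_le (a n : ℕ) (ha : 2 ≤ a) (hn : n ^ 2 ≤ 3 ^ a) (m : Fin 3 → ℕ)
    (hm : ∀ i, a + 1 ≤ m i) : ¬ Arrows (univ : Finset (Fin 3)) m n := by
  classical
  intro h
  let Ω := Sym2 (Fin n) → Fin 3
  let bad : Finset (Fin n) × Fin 3 → Finset Ω := fun q =>
    univ.filter (fun c => ∀ p ∈ q.1.sym2.filter (fun p => ¬ p.IsDiag), c p = q.2)
  have hcover : (univ : Finset Ω) ⊆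
      ((univ.powersetCard (a + 1)) ×ˢ (univ : Finset (Fin 3))).biUnion bad := by
    intro c _
    obtain ⟨i, -, U, h1, h2⟩ := h c (fun _ => mem_univ _)
    obtain ⟨U', hU', hcard⟩ := exists_subset_card_eq (s := U) (n := a + 1) (h1 ▸ hm i)
    refine mem_biUnion.2 ⟨(U', i), by simp [mem_powersetCard, hcard], ?_⟩
    refine mem_filter.2 ⟨mem_univ _, ?_⟩
    intro p hp
    induction p using Sym2.ind with
    | _ x y =>
      obtain ⟨hp1, hp2⟩ := mem_filter.1 hp
      rw [mk_mem_sym2_iff] at hp1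
      exact h2 x (hU' hp1.1) y (hU' hp1.2) (by simpa using hp2)
  set P := Fintype.card (Sym2 (Fin n)) with hP
  have hbad : ∀ q ∈ (univ.powersetCard (a + 1)) ×ˢ (univ : Finset (Fin 3)),
      (bad q).card * 3 ^ ((a + 1).choose 2) = 3 ^ P := by
    rintro ⟨U, i⟩ hq
    have hU : U.card = a + 1 := (mem_powersetCard.1 (mem_product.1 hq).1).2
    set E := U.sym2.filter (fun p => ¬ p.IsDiag) with hE
    have hEcard : E.card = (a + 1).choose 2 := by
      rw [← hU, ← Sym2.card_image_offDiag]
      congr 1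
      ext p
      induction p using Sym2.ind with
      | _ x y =>
        simp only [hE, mem_filter, mk_mem_sym2_iff, Sym2.mk_isDiag_iff, mem_image, mem_offDiag]
        constructor
        · rintro ⟨⟨h1, h2⟩, h3⟩; exact ⟨(x, y), ⟨h1, h2, h3⟩, rfl⟩
        · rintro ⟨⟨u, v⟩, ⟨h1, h2, h3⟩, h4⟩
          rcases Sym2.eq_iff.1 h4 with ⟨rfl, rfl⟩ | ⟨rfl, rfl⟩
          · exact ⟨⟨h1, h2⟩, h3⟩
          · exact ⟨⟨h2, h1⟩, fun h => h3 h.symm⟩
    have hpi : bad (U, i) = Fintype.piFinset (fun p => if p ∈ E then {i} else univ) := by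
      ext c
      refine Iff.trans ?_ Fintype.mem_piFinset.symm
      simp only [bad, mem_filter, mem_univ, true_and]
      constructor
      · intro hc p
        split_ifs with hp
        · exact mem_singleton.2 (hc p (mem_filter.1 hp))
        · exact mem_univ _
      · intro hc p hp
        have := hc p
        rw [if_pos (mem_filter.2 hp)] at this
        exact mem_singleton.1 this
    rw [hpi, Fintype.card_piFinset, ← hEcard]
    have e1 : ∀ p : Sym2 (Fin n), (if p ∈ E then ({i} : Finset (Fin 3)) else univ).card =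
        if p ∈ E then 1 else 3 := by
      intro p; split_ifs <;> simp
    simp only [e1]
    have e2 : 3 ^ E.card = ∏ p : Sym2 (Fin n), if p ∈ E then 3 else 1 := by
      rw [prod_ite_mem, univ_inter, prod_const]
    rw [e2, ← prod_mul_distrib, hP, ← card_univ, ← prod_const]
    refine prod_congr rfl (fun p _ => ?_)
    split_ifs <;> simp
  have h1 : 3 ^ P * 3 ^ ((a + 1).choose 2) ≤ (n.choose (a + 1) * 3) * 3 ^ P := by
    have h2 := (card_le_card hcover).trans card_biUnion_le
    have h3 : (univ : Finset Ω).card = 3 ^ P := by simp [Ω, hP]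
    rw [h3] at h2
    calc 3 ^ P * 3 ^ ((a + 1).choose 2)
        ≤ (∑ q ∈ (univ.powersetCard (a + 1)) ×ˢ (univ : Finset (Fin 3)), (bad q).card) *
          3 ^ ((a + 1).choose 2) := Nat.mul_le_mul_right _ h2
      _ = ∑ q ∈ (univ.powersetCard (a + 1)) ×ˢ (univ : Finset (Fin 3)), 3 ^ P := by
          rw [sum_mul]; exact sum_congr rfl hbad
      _ = (n.choose (a + 1) * 3) * 3 ^ P := by simp
  have h4 : 3 ^ ((a + 1).choose 2) ≤ n.choose (a + 1) * 3 := by
    rw [mul_comm] at h1
    exact Nat.le_of_mul_le_mul_right h1 (by positivity)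
  have h5 : n ^ (a + 1) ≤ 3 ^ ((a + 1).choose 2) := by
    have e : 2 * (a + 1).choose 2 = a * (a + 1) := by
      rw [Nat.choose_two_right, Nat.add_sub_cancel, mul_comm (a + 1) a]
      exact Nat.mul_div_cancel' (Nat.even_mul_succ_self a).two_dvd
    have : (n ^ (a + 1)) ^ 2 ≤ (3 ^ ((a + 1).choose 2)) ^ 2 := by
      rw [← pow_mul, ← pow_mul, mul_comm (a + 1) 2, mul_comm _ 2, e, pow_mul, pow_mul]
      exact Nat.pow_le_pow_left hn _
    exact (Nat.pow_le_pow_iff_left (by norm_num)).1 this
  have h6 : (a + 1).factorial * n.choose (a + 1) ≤ n ^ (a + 1) := by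
    rw [← Nat.descFactorial_eq_factorial_mul_choose]
    exact Nat.descFactorial_le_pow _ _
  have h7 : 6 ≤ (a + 1).factorial := Nat.factorial_le (show 3 ≤ a + 1 by omega)
  have h8 : 0 < 3 ^ ((a + 1).choose 2) := by positivity
  nlinarith

end Pool.Agent.MP_cb8ad4_co

end

-- part MP_cb8ad4_co.Construct
section

/-!
Constructions of suitable cores.
-/

namespace Pool.Agent.MP_cb8ad4_co

open Finset

theorem pair_core {X : Type} [Fintype X] [DecidableEq X] (M : X → Finset X) (e extra : X → ℕ)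
    (b0 t : ℕ) (hx : ∀ x, x ∉ M x)
    (hcount : ∀ x, b0 + e x + (M x).card + 1 = Fintype.card X + extra x)
    (third : X → X → X) (four : X)
    (hC : ∀ σ (U : Finset X), σ ∉ U → U.card = e σ + 1 → ∃ x ∈ U, σ ∉ M x ∨
      ∃ y ∈ U, y ≠ x ∧ y ∉ M x ∧ (third x y = σ ∨ (third x y ∈ U ∧ four = σ)))
    (ht : t + 1 ≤ b0 + Fintype.card X) :
    ∃ (ρ : Type) (_ : Fintype ρ) (key : ρ → X → ℕ), Core t key ∧
      Fintype.card ρ = ∑ x, (b0 + e x) := by
  let F : X → Type := fun x => {y // y ∈ (univ.erase x) \ M x} ⊕ Fin (extra x)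
  have hF : ∀ x, Fintype.card (F x) = b0 + e x := by
    intro x
    have h1 : M x ⊆ univ.erase x := fun y hy => mem_erase.2 ⟨fun h => hx x (h ▸ hy), mem_univ _⟩
    have h2 := card_sdiff_add_card_eq_card h1
    rw [card_erase_of_mem (mem_univ _), card_univ] at h2
    have h3 : 0 < Fintype.card X := Fintype.card_pos_iff.2 ⟨x⟩
    have h4 := hcount x
    simp only [F, Fintype.card_sum, Fintype.card_coe, Fintype.card_fin]
    omega
  let key : (Σ x, F x) → X → ℕ := fun r z =>
    match r with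
    | ⟨x, Sum.inl y⟩ => if z = x then 0 else if z = y.1 then 1 else
        if z = third x y.1 then 2 else if z = four then 3 else 4
    | ⟨x, Sum.inr _⟩ => if z = x then 0 else 1
  refine ⟨Σ x, F x, inferInstance, key, ?_, by rw [Fintype.card_sigma]; simp only [hF]⟩
  refine core_of_edges key Sigma.fst ?_ e b0 t ?_ ?_ ht
  · rintro ⟨x, y | y⟩ b hb
    · simp only [key, if_true, if_neg hb]
      split_ifs <;> norm_num
    · simp only [key, if_true, if_neg hb]; norm_num
  · intro σ
    rw [← hF σ, ← card_univ, ← card_map (Function.Embedding.sigmaMk σ)]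
    apply card_le_card
    intro r hr
    obtain ⟨a, -, rfl⟩ := mem_map.1 hr
    simp
  · intro σ U hσ hU
    obtain ⟨x, hxU, h⟩ := hC σ U hσ hU
    have hσx : σ ≠ x := fun h => hσ (h ▸ hxU)
    rcases h with h | ⟨y, hyU, hyx, hyM, h⟩
    · refine ⟨⟨x, Sum.inl ⟨σ, by simp [hσx, h]⟩⟩, hxU, fun b hb hbσ => ?_⟩
      have hbx : b ≠ x := fun h => hb (h ▸ hxU)
      simp only [key, if_neg hσx, if_true, if_neg hbx, if_neg hbσ]
      split_ifs <;> norm_num
    · have hσy : σ ≠ y := fun h => hσ (h ▸ hyU)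
      refine ⟨⟨x, Sum.inl ⟨y, by simp [hyx, hyM]⟩⟩, hxU, fun b hb hbσ => ?_⟩
      have hbx : b ≠ x := fun h => hb (h ▸ hxU)
      have hby : b ≠ y := fun h => hb (h ▸ hyU)
      rcases h with h | ⟨h1, h2⟩
      · simp only [key, if_neg hσx, if_neg hσy, if_neg hbx, if_neg hby, h, if_true, if_neg hbσ]
        split_ifs <;> norm_num
      · have hbt : b ≠ third x y := fun h => hb (h ▸ h1)
        simp only [key, if_neg hσx, if_neg hσy, if_neg hbx, if_neg hby, if_neg hbt, h2, if_true,
          if_neg hbσ]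
        split_ifs <;> norm_num

/-- The core on `s + 2` symbols. -/
theorem exists_array_two (s N : ℕ) (hN : (s + 1) ^ 2 ≤ N) :
    ∃ A : Fin N → Equiv.Perm (Fin (N + (s + 2))), IsSuitable N (N + (s + 2)) (2 * s + 1) A := by
  obtain ⟨ρ, _, key, h1, h2⟩ := pair_core (X := Fin (s + 2))
    (fun x => if x = 0 then ∅ else {0}) (fun x => if x = 0 then 1 else 0) (fun _ => 0) s
    (2 * s + 1)
    (by intro x; split_ifs with h <;> simp [h])
    (by intro x; split_ifs with h <;> simp)
    (fun _ _ => 0) 0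
    (by
      intro σ U hσ hU
      by_cases h : σ = 0
      · subst h
        simp only [if_true] at hU
        obtain ⟨x, hx, y, hy, hxy⟩ := one_lt_card.1 (show 1 < U.card by omega)
        have hy0 : y ≠ 0 := fun h => hσ (h ▸ hy)
        refine ⟨x, hx, Or.inr ⟨y, hy, hxy.symm, ?_, Or.inl rfl⟩⟩
        split_ifs <;> simp [hy0]
      · obtain ⟨x, hx⟩ := card_pos.1 (show 0 < U.card by omega)
        refine ⟨x, hx, Or.inl ?_⟩
        split_ifs <;> simp [h])
    (by simp; omega)
  refine core_to_array key h1 ?_ (by simp) (by omega)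
  rw [h2, sum_add_distrib]
  simp
  nlinarith

lemma exists_third {X : Type} [Fintype X] [DecidableEq X] (M : X → Finset X)
    (C : X → X → Finset X) (hsymm : ∀ x y, C x y = C y x)
    (hcard : ∀ x y, x ≠ y →
      (C x y).card + (if y ∈ M x then 1 else 0) + (if x ∈ M y then 1 else 0) ≤ 2) :
    ∃ third : X → X → X, ∀ x y, x ≠ y → ∀ c ∈ C x y,
      (y ∉ M x ∧ third x y = c) ∨ (x ∉ M y ∧ third y x = c) := by
  by_cases hne : Nonempty X
  swap
  · exact ⟨fun x _ => x, fun x => (hne ⟨x⟩).elim⟩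
  obtain ⟨x0⟩ := hne
  have hex : ∀ S : Finset X, ∃ lo hi : X, (S.card ≤ 2 → ∀ c ∈ S, lo = c ∨ hi = c) ∧
      (S.card ≤ 1 → ∀ c ∈ S, lo = c ∧ hi = c) := by
    intro S
    by_cases h2 : S.card = 2
    · obtain ⟨a, b, -, rfl⟩ := card_eq_two.1 h2
      exact ⟨a, b, fun _ c hc => by simpa [eq_comm] using hc, fun h => by omega⟩
    · by_cases h1 : S.card = 1
      · obtain ⟨a, rfl⟩ := card_eq_one.1 h1
        exact ⟨a, a, fun _ c hc => Or.inl (mem_singleton.1 hc).symm,
          fun _ c hc => ⟨(mem_singleton.1 hc).symm, (mem_singleton.1 hc).symm⟩⟩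
      · refine ⟨x0, x0, fun h c hc => ?_, fun h c hc => ?_⟩ <;>
        · have := card_pos.2 ⟨c, hc⟩
          omega
  choose lo hi hlo hhi using hex
  let n := Fintype.equivFin X
  refine ⟨fun x y => if n x < n y then lo (C x y) else hi (C x y), fun x y hxy c hc => ?_⟩
  have h := hcard x y hxy
  by_cases h1 : y ∈ M x
  · rw [if_pos h1] at h
    have h2 : x ∉ M y := by
      intro h2
      rw [if_pos h2] at h
      have := card_pos.2 ⟨c, hc⟩
      omega
    refine Or.inr ⟨h2, ?_⟩
    have := hhi (C x y) (by omega) c hc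
    simp only [← hsymm x y]
    split_ifs
    · exact this.1
    · exact this.2
  · by_cases h2 : x ∈ M y
    · rw [if_pos h2] at h
      refine Or.inl ⟨h1, ?_⟩
      have := hhi (C x y) (by omega) c hc
      simp only
      split_ifs
      · exact this.1
      · exact this.2
    · have h3 := hlo (C x y) (by omega) c hc
      have hn : n x ≠ n y := fun h => hxy (n.injective h)
      rcases lt_or_gt_of_ne hn with h4 | h4
      · rcases h3 with h3 | h3
        · exact Or.inl ⟨h1, by simp only [if_pos h4]; exact h3⟩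
        · exact Or.inr ⟨h2, by simp only [if_neg (not_lt.2 h4.le), ← hsymm x y]; exact h3⟩
      · rcases h3 with h3 | h3
        · exact Or.inr ⟨h2, by simp only [if_pos h4, ← hsymm x y]; exact h3⟩
        · exact Or.inl ⟨h1, by simp only [if_neg (not_lt.2 h4.le)]; exact h3⟩

lemma edges_of_classes {X : Type} [Fintype X] [DecidableEq X] (M Mb : X → Finset X) (e : X → ℕ)
    (σ1 : X) (ab : X → X → X) (hab : ∀ x y, ab x y = ab y x)
    (h1 : ∀ x, x ∉ M x) (h2 : ∀ x, M x ⊆ Mb x) (h3 : ∀ x y, y ∈ M x → y ∈ Mb y)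
    (h4 : ∀ x, (Mb x).card ≤ 3)
    (h5 : ∀ x y, x ≠ y → Mb x = Mb y → (Mb x).card = 3 → ab x y ∈ M x ∩ M y)
    (h6 : ∀ σ (U : Finset X), σ ∉ U → U.card = e σ + 1 → (∀ x ∈ U, σ ∈ M x) →
      (∀ x ∈ U, ∀ y ∈ U, x ≠ y → Mb x = Mb y ∧ (Mb x).card = 3 ∧ ab x y = σ) →
      σ = σ1 ∧ ∃ z ∈ U, ∃ x ∈ U, ∃ y ∈ U, x ≠ y ∧ z ∈ M x ∧ z ∈ M y) :
    ∃ third : X → X → X, ∀ σ (U : Finset X), σ ∉ U → U.card = e σ + 1 → ∃ x ∈ U, σ ∉ M x ∨
      ∃ y ∈ U, y ≠ x ∧ y ∉ M x ∧ (third x y = σ ∨ (third x y ∈ U ∧ σ1 = σ)) := by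
  let C : X → X → Finset X := fun x y =>
    if Mb x = Mb y ∧ (Mb x).card = 3 then (M x ∩ M y).erase (ab x y) else M x ∩ M y
  obtain ⟨third, hthird⟩ := exists_third M C
    (by
      intro x y
      simp only [C, hab x y, inter_comm (M x) (M y)]
      by_cases h : Mb x = Mb y
      · simp [h]
      · have h' : ¬ Mb y = Mb x := fun h' => h h'.symm
        simp [h, h'])
    (by
      intro x y hxy
      have key : (M x ∩ M y).card + (if y ∈ M x then 1 else 0) + (if x ∈ M y then 1 else 0) ≤
          (Mb x ∩ Mb y).card := by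
        have s0 : M x ∩ M y ⊆ Mb x ∩ Mb y := inter_subset_inter (h2 x) (h2 y)
        have ny : y ∉ M x ∩ M y := fun h => h1 y (mem_inter.1 h).2
        have nx : x ∉ M x ∩ M y := fun h => h1 x (mem_inter.1 h).1
        split_ifs with a b b
        · have : insert x (insert y (M x ∩ M y)) ⊆ Mb x ∩ Mb y :=
            insert_subset (mem_inter.2 ⟨h3 y x b, h2 y b⟩)
              (insert_subset (mem_inter.2 ⟨h2 x a, h3 x y a⟩) s0)
          have h := card_le_card this
          rwa [card_insert_of_notMem (by simp [hxy, h1 x]), card_insert_of_notMem ny] at h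
        · have h := card_le_card (insert_subset (mem_inter.2 ⟨h2 x a, h3 x y a⟩) s0)
          rwa [card_insert_of_notMem ny] at h
        · have h := card_le_card (insert_subset (mem_inter.2 ⟨h3 y x b, h2 y b⟩) s0)
          rwa [card_insert_of_notMem nx] at h
        · exact card_le_card s0
      by_cases ht : Mb x = Mb y ∧ (Mb x).card = 3
      · have h7 := h5 x y hxy ht.1 ht.2
        have h8 := card_pos.2 ⟨_, h7⟩
        rw [← ht.1, inter_self, ht.2] at key
        simp only [C, if_pos ht, card_erase_of_mem h7]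
        omega
      · have h7 : (Mb x ∩ Mb y).card ≤ 2 := by
          by_contra hc
          have a1 : Mb x ∩ Mb y = Mb x :=
            eq_of_subset_of_card_le inter_subset_left (by have := h4 x; omega)
          have a2 : Mb x ∩ Mb y = Mb y :=
            eq_of_subset_of_card_le inter_subset_right (by have := h4 y; omega)
          refine ht ⟨a1.symm.trans a2, ?_⟩
          rw [a1] at hc
          have := h4 x
          omega
        simp only [C, if_neg ht]
        omega)
  refine ⟨third, fun σ U hσ hU => ?_⟩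
  by_contra hcon
  push Not at hcon
  have hM : ∀ x ∈ U, σ ∈ M x := fun x hx => (hcon x hx).1
  have hno : ∀ x ∈ U, ∀ y ∈ U, x ≠ y → σ ∉ C x y := by
    intro x hx y hy hxy hc
    rcases hthird x y hxy σ hc with ⟨a, b⟩ | ⟨a, b⟩
    · exact ((hcon x hx).2 y hy hxy.symm a).1 b
    · exact ((hcon y hy).2 x hx hxy a).1 b
  have htight : ∀ x ∈ U, ∀ y ∈ U, x ≠ y → Mb x = Mb y ∧ (Mb x).card = 3 ∧ ab x y = σ := by
    intro x hx y hy hxy
    have h := hno x hx y hy hxy
    have hm : σ ∈ M x ∩ M y := mem_inter.2 ⟨hM x hx, hM y hy⟩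
    by_cases ht : Mb x = Mb y ∧ (Mb x).card = 3
    · simp only [C, if_pos ht] at h
      refine ⟨ht.1, ht.2, ?_⟩
      by_contra hne
      exact h (mem_erase.2 ⟨fun h' => hne h'.symm, hm⟩)
    · simp only [C, if_neg ht] at h
      exact (h hm).elim
  obtain ⟨rfl, z, hz, x, hx, y, hy, hxy, hzx, hzy⟩ := h6 σ U hσ hU hM htight
  obtain ⟨t1, t2, t3⟩ := htight x hx y hy hxy
  have hzC : z ∈ C x y := by
    simp only [C, if_pos (And.intro t1 t2), t3]
    exact mem_erase.2 ⟨fun h => hσ (h ▸ hz), mem_inter.2 ⟨hzx, hzy⟩⟩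
  rcases hthird x y hxy z hzC with ⟨a, b⟩ | ⟨a, b⟩
  · exact ((hcon x hx).2 y hy hxy.symm a).2 (b ▸ hz) rfl
  · exact ((hcon y hy).2 x hx hxy a).2 (b ▸ hz) rfl

/-- The core on `s + 3` symbols built from extremal Ramsey colourings. -/
theorem exists_array_three {k : ℕ} (e : Fin k → ℕ) (hk : 3 ≤ k) (he : ∀ i, 1 ≤ e i)
    (i1 : Fin k) (hi1 : 2 ≤ e i1) (s N : ℕ)
    (hs : s + 3 = k + ∑ T ∈ (univ : Finset (Fin k)).powersetCard 3,
      (ramsey T (fun i => e i + 1) - 1))
    (hs1 : 1 ≤ s) (hN : (s + 3) * (s - 1) + ∑ i, e i ≤ N) :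
    ∃ A : Fin N → Equiv.Perm (Fin (N + (s + 3))), IsSuitable N (N + (s + 3)) (2 * s + 1) A := by
  classical
  let n : Finset (Fin k) → ℕ := fun T => ramsey T (fun i => e i + 1) - 1
  have hcol : ∀ T : Finset (Fin k), ∃ c : ℕ → ℕ → Fin k, T.card = 3 →
      (∀ a b, c a b = c b a) ∧ (∀ a b, c a b ∈ T) ∧ ∀ i ∈ T, ∀ U : Finset ℕ,
        (∀ a ∈ U, a < n T) → U.card = e i + 1 → ∃ a ∈ U, ∃ b ∈ U, a ≠ b ∧ c a b ≠ i := by
    intro T
    by_cases hT : T.card = 3
    swap
    · exact ⟨fun _ _ => i1, fun h => (hT h).elim⟩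
    obtain ⟨j, hj⟩ := card_pos.1 (show 0 < T.card by omega)
    have h1 := lt_ramsey_of_mem T hT.le e (fun i _ => he i) hj
    obtain ⟨c, hc1, hc2⟩ := exists_colouring (C := T) (m := fun i => e i + 1) (n := n T)
      (by simp only [n]; omega)
    refine ⟨fun a b => if h : a < n T ∧ b < n T then c s(⟨a, h.1⟩, ⟨b, h.2⟩) else j,
      fun _ => ⟨?_, ?_, ?_⟩⟩
    · intro a b
      beta_reduce
      by_cases h : a < n T ∧ b < n T
      · rw [dif_pos h, dif_pos h.symm, Sym2.eq_swap]
      · rw [dif_neg h, dif_neg (fun h' => h h'.symm)]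
    · intro a b
      beta_reduce
      split_ifs
      · exact hc1 _
      · exact hj
    · intro i hi U hU hcard
      obtain ⟨x, hx, y, hy, hxy, hc⟩ := hc2 i hi (U.attachFin hU) (by rw [card_attachFin, hcard])
      refine ⟨x.1, (mem_attachFin hU).1 hx, y.1, (mem_attachFin hU).1 hy,
        fun h => hxy (Fin.ext h), ?_⟩
      beta_reduce
      rw [dif_pos (And.intro x.2 y.2)]
      exact hc
  choose c hc using hcol
  have hMK : ∀ i : Fin k, ∃ m : Finset (Fin k), i ∉ m ∧ m.card = 3 - e i ∧ (e i = 1 → i1 ∈ m) := by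
    intro i
    have hcard : (univ.erase i).card = k - 1 := by simp
    by_cases h : e i = 1
    · have hne : i1 ≠ i := by rintro rfl; omega
      obtain ⟨m, h1, h2, h3⟩ := exists_subsuperset_card_eq (s := {i1}) (t := univ.erase i) (n := 2)
        (by simp [hne]) (by simp) (by omega)
      exact ⟨m, fun h' => (mem_erase.1 (h2 h')).1 rfl, by omega, fun _ => h1 (by simp)⟩
    · have := he i
      obtain ⟨m, h2, h3⟩ := exists_subset_card_eq (s := univ.erase i) (n := 3 - e i) (by omega)
      exact ⟨m, fun h' => (mem_erase.1 (h2 h')).1 rfl, h3, fun h' => (h h').elim⟩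
  choose MK hMK1 hMK2 hMK3 using hMK
  let RR : Finset (Σ _ : Finset (Fin k), ℕ) :=
    ((univ : Finset (Fin k)).powersetCard 3).sigma (fun T => range (n T))
  let R : Type := {p // p ∈ RR}
  have hR3 : ∀ p : R, p.1.1.card = 3 := fun p => (mem_powersetCard.1 (mem_sigma.1 p.2).1).2
  have hRn : ∀ p : R, p.1.2 < n p.1.1 := fun p => mem_range.1 (mem_sigma.1 p.2).2
  let X : Type := Fin k ⊕ R
  have hX : Fintype.card X = s + 3 := by
    simp only [X, R, RR, Fintype.card_sum, Fintype.card_fin, Fintype.card_coe, card_sigma,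
      card_range]
    rw [hs]
  let inl : Fin k ↪ X := Function.Embedding.inl
  let M : X → Finset X := fun x => match x with
    | Sum.inl i => (MK i).map inl
    | Sum.inr p => p.1.1.map inl
  let Mb : X → Finset X := fun x => match x with
    | Sum.inl i => (insert i (MK i)).map inl
    | Sum.inr p => p.1.1.map inl
  let eX : X → ℕ := fun x => match x with
    | Sum.inl i => e i
    | Sum.inr _ => 0
  let extra : X → ℕ := fun x => match x with
    | Sum.inl i => e i - 3
    | Sum.inr _ => 0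
  let ab : X → X → X := fun x y => match x, y with
    | Sum.inr p, Sum.inr q => if p.1.1 = q.1.1 then inl (c p.1.1 p.1.2 q.1.2) else inl i1
    | _, _ => inl i1
  have hM1 : ∀ x, x ∉ M x := by
    rintro (i | p)
    · exact fun h => hMK1 i ((mem_map' inl).1 h)
    · intro h
      obtain ⟨i, -, hi⟩ := mem_map.1 h
      cases hi
  have hMspec : ∀ x y, y ∈ M x → ∃ i, y = inl i := by
    rintro (i | p) y h <;> obtain ⟨j, -, rfl⟩ := mem_map.1 h <;> exact ⟨j, rfl⟩
  have hone : ∀ i, (Mb (Sum.inl i)).card = 3 → e i = 1 := by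
    intro i h
    simp only [Mb, card_map, card_insert_of_notMem (hMK1 i), hMK2] at h
    have := he i
    omega
  have hi1M : ∀ x i, Mb x = Mb (Sum.inl i) → (Mb x).card = 3 → inl i1 ∈ M x := by
    rintro (j | p) i h1 h2
    · exact mem_map_of_mem _ (hMK3 j (hone j h2))
    · have : inl i1 ∈ Mb (Sum.inl i) :=
        mem_map_of_mem _ (mem_insert_of_mem (hMK3 i (hone i (h1 ▸ h2))))
      rw [← h1] at this
      exact this
  obtain ⟨third, hthird⟩ := edges_of_classes M Mb eX (inl i1) ab
    (by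
      rintro (i | p) (j | q)
      · rfl
      · rfl
      · rfl
      · simp only [ab]
        by_cases h : p.1.1 = q.1.1
        · rw [if_pos h, if_pos h.symm, (hc _ (hR3 p)).1, h]
        · rw [if_neg h, if_neg (fun h' => h h'.symm)])
    hM1
    (by
      rintro (i | p)
      · exact map_subset_map.2 (subset_insert _ _)
      · exact subset_rfl)
    (by
      intro x y h
      obtain ⟨i, rfl⟩ := hMspec x y h
      exact mem_map_of_mem _ (mem_insert_self _ _))
    (by
      rintro (i | p)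
      · simp only [Mb, card_map, card_insert_of_notMem (hMK1 i), hMK2]
        have := he i
        omega
      · simp only [Mb, card_map, hR3]; exact le_rfl)
    (by
      rintro (i | p) (j | q) hxy h1 h2
      · exact mem_inter.2 ⟨hi1M (Sum.inl i) i rfl h2,
          hi1M (Sum.inl j) j rfl ((congrArg card h1).symm.trans h2)⟩
      · exact mem_inter.2 ⟨hi1M (Sum.inl i) i rfl h2,
          hi1M (Sum.inr q) i h1.symm ((congrArg card h1).symm.trans h2)⟩
      · exact mem_inter.2 ⟨hi1M (Sum.inr p) j h1 h2,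
          hi1M (Sum.inl j) j rfl ((congrArg card h1).symm.trans h2)⟩
      · have h3 : p.1.1 = q.1.1 := map_injective inl h1
        simp only [ab, if_pos h3, M]
        rw [← h3, inter_self]
        exact mem_map_of_mem _ ((hc _ (hR3 p)).2.1 _ _))
    (by
      intro σ U hσ hU hM ht
      obtain ⟨x0, hx0⟩ := card_pos.1 (show 0 < U.card by omega)
      obtain ⟨i, rfl⟩ := hMspec x0 σ (hM x0 hx0)
      have hU' : U.card = e i + 1 := hU
      have hei := he i
      by_cases hsp : ∃ j, Sum.inl j ∈ U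
      · obtain ⟨j, hj⟩ := hsp
        obtain ⟨y0, hy0, hy0'⟩ := exists_mem_ne (show 1 < U.card by omega) (Sum.inl j)
        have h1 : inl i1 = inl i := by
          have := (ht _ hj _ hy0 hy0'.symm).2.2
          rcases y0 with y0 | y0 <;> exact this
        have h2 : i1 = i := inl.injective h1
        subst h2
        refine ⟨rfl, Sum.inl j, hj, ?_⟩
        obtain ⟨x, hx, y, hy, hxy⟩ := one_lt_card.1 (show 1 < (U.erase (Sum.inl j)).card by
          rw [card_erase_of_mem hj]; omega)
        have key : ∀ x ∈ U.erase (Sum.inl j), Sum.inl j ∈ M x := by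
          intro x hx
          obtain ⟨hx1, hx2⟩ := mem_erase.1 hx
          have h3 : inl j ∈ Mb (Sum.inl j) := mem_map_of_mem _ (mem_insert_self _ _)
          rw [← (ht x hx2 _ hj hx1).1] at h3
          rcases x with a | p
          · rcases mem_insert.1 ((mem_map' inl).1 h3) with h | h
            · exact (hx1 (by rw [h])).elim
            · exact mem_map_of_mem inl h
          · exact h3
        exact ⟨x, mem_of_mem_erase hx, y, mem_of_mem_erase hy, hxy, key x hx, key y hy⟩
      · exfalso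
        push Not at hsp
        obtain ⟨p0, rfl⟩ : ∃ p0, x0 = Sum.inr p0 := by
          rcases x0 with j | p
          · exact (hsp j hx0).elim
          · exact ⟨p, rfl⟩
        have hT : ∀ p : R, Sum.inr p ∈ U → p.1.1 = p0.1.1 := by
          intro p hp
          by_cases h : p = p0
          · rw [h]
          · exact map_injective inl (ht _ hp _ hx0 (fun h' => h (Sum.inr.inj h'))).1
        have hinj : ∀ p ∈ U.toRight, ∀ q ∈ U.toRight, p.1.2 = q.1.2 → p = q := by
          rintro ⟨⟨T1, a⟩, h1⟩ hp ⟨⟨T2, b⟩, h2⟩ hq hab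
          have e1 : T1 = T2 := (hT _ (mem_toRight.1 hp)).trans (hT _ (mem_toRight.1 hq)).symm
          have e2 : a = b := hab
          subst e1 e2
          rfl
        have hleft : U.toLeft = ∅ := eq_empty_of_forall_notMem (fun j hj => hsp j (mem_toLeft.1 hj))
        have hcardR : U.toRight.card = e i + 1 := by
          have := card_toLeft_add_card_toRight (u := U)
          rw [hleft, card_empty] at this
          omega
        obtain ⟨a, ha, b, hb, hab, hne⟩ := (hc _ (hR3 p0)).2.2 i
          ((mem_map' inl).1 (hM _ hx0)) (U.toRight.image (fun p => p.1.2))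
          (by
            intro a ha
            obtain ⟨p, hp, rfl⟩ := mem_image.1 ha
            rw [← hT p (mem_toRight.1 hp)]
            exact hRn p)
          (by rw [card_image_of_injOn (fun p hp q hq h => hinj p hp q hq h), hcardR])
        obtain ⟨p, hp, rfl⟩ := mem_image.1 ha
        obtain ⟨q, hq, rfl⟩ := mem_image.1 hb
        have hp' := mem_toRight.1 hp
        have hq' := mem_toRight.1 hq
        have hpq : (Sum.inr p : X) ≠ Sum.inr q := by
          intro h
          exact hab (by rw [Sum.inr.inj h])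
        have h5 := (ht _ hp' _ hq' hpq).2.2
        have h6 : p.1.1 = q.1.1 := by rw [hT p hp', hT q hq']
        simp only [ab, if_pos h6] at h5
        apply hne
        rw [← hT p hp']
        exact inl.injective h5)
  obtain ⟨ρ, _, key, h1, h2⟩ := pair_core M eX extra (s - 1) (2 * s + 1) hM1
    (by
      rw [hX]
      rintro (i | p)
      · simp only [M, eX, extra, card_map, hMK2]; omega
      · simp only [M, eX, extra, card_map, hR3]; omega)
    third (inl i1) hthird (by rw [hX]; omega)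
  refine core_to_array key h1 ?_ hX (by omega)
  rw [h2, sum_add_distrib, sum_const, card_univ, hX, smul_eq_mul]
  simpa [X, eX, Fintype.sum_sum_type] using hN

end Pool.Agent.MP_cb8ad4_co

end

-- part MP_cb8ad4_co.Upper
section

/-!
Nonexistence of suitable cores on `s + 3` symbols for large `s`.
-/

namespace Pool.Agent.MP_cb8ad4_co

open Finset

lemma list_colouring {X β : Type} [DecidableEq X] [DecidableEq β] [Nonempty β] (D : X → Finset X)
    (L : X → Finset β) (R : Finset X) (hL : ∀ x ∈ R, 2 * (D x).card < (L x).card) :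
    ∃ f : X → β, (∀ x ∈ R, f x ∈ L x) ∧ ∀ x ∈ R, ∀ y ∈ R, x ≠ y → y ∈ D x → f x ≠ f y := by
  induction R using Finset.strongInduction with
  | H R ih =>
    rcases R.eq_empty_or_nonempty with rfl | hne
    · exact ⟨fun _ => Classical.arbitrary β, by simp, by simp⟩
    have hsum : ∑ v ∈ R, (R.filter (fun x => v ∈ D x)).card ≤ ∑ v ∈ R, (D v).card := by
      calc ∑ v ∈ R, (R.filter (fun x => v ∈ D x)).card
          = ∑ v ∈ R, ∑ x ∈ R, if v ∈ D x then 1 else 0 := by simp only [card_filter]
        _ = ∑ x ∈ R, ∑ v ∈ R, if v ∈ D x then 1 else 0 := sum_comm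
        _ = ∑ x ∈ R, (R.filter (fun v => v ∈ D x)).card := by simp only [card_filter]
        _ ≤ ∑ x ∈ R, (D x).card :=
          sum_le_sum (fun x _ => card_le_card (fun v hv => (mem_filter.1 hv).2))
    obtain ⟨v, hv, hle⟩ := exists_le_of_sum_le hne hsum
    obtain ⟨f, hf1, hf2⟩ := ih (R.erase v) (erase_ssubset hv)
      (fun x hx => hL x (mem_of_mem_erase hx))
    have hcard : (((R.filter (fun x => v ∈ D x)) ∪ D v).image f).card < (L v).card := by
      have h1 := card_image_le (s := (R.filter (fun x => v ∈ D x)) ∪ D v) (f := f)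
      have h2 := card_union_le (R.filter (fun x => v ∈ D x)) (D v)
      have h3 := hL v hv
      omega
    obtain ⟨b, hb1, hb2⟩ := exists_mem_notMem_of_card_lt_card hcard
    refine ⟨Function.update f v b, fun x hx => ?_, fun x hx y hy hxy hD => ?_⟩
    · by_cases h : x = v
      · subst h; rw [Function.update_self]; exact hb1
      · rw [Function.update_of_ne h]; exact hf1 x (mem_erase.2 ⟨h, hx⟩)
    · by_cases h : x = v
      · subst h
        rw [Function.update_self, Function.update_of_ne hxy.symm]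
        intro h
        exact hb2 (mem_image.2 ⟨y, mem_union_right _ hD, h.symm⟩)
      · by_cases h' : y = v
        · subst h'
          rw [Function.update_self, Function.update_of_ne h]
          intro h
          exact hb2 (mem_image.2 ⟨x, mem_union_left _ (mem_filter.2 ⟨hx, hD⟩), h⟩)
        · rw [Function.update_of_ne h, Function.update_of_ne h']
          exact hf2 x (mem_erase.2 ⟨h, hx⟩) y (mem_erase.2 ⟨h', hy⟩) hxy hD

lemma two_mul_lt_choose {d n : ℕ} (h : 3 + d ≤ n) : 2 * d < n.choose 3 := by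
  refine lt_of_lt_of_le ?_ (Nat.choose_le_choose 3 h)
  clear h
  induction d with
  | zero => simp
  | succ d ih =>
    rw [← add_assoc, Nat.choose_succ_succ' (3 + d) 2]
    have : 3 ≤ (3 + d).choose 2 := Nat.choose_le_choose 2 (show 3 ≤ 3 + d by omega)
    simp only [Nat.reduceAdd]
    omega

theorem upper {X ρ β : Type} [Fintype X] [Fintype ρ] [LinearOrder β] (key : ρ → X → β)
    (hinj : ∀ r, Function.Injective (key r)) (s ℓ : ℕ) (hc : Core (2 * (s + 1) + 1) key)
    (hX : Fintype.card X = s + 4) (hρ : Fintype.card ρ = (s + 2) ^ 2 + ℓ) :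
    (∃ (k : ℕ) (e : Fin k → ℕ), 3 ≤ k ∧ k ≤ ℓ + 3 ∧ (∀ i, 1 ≤ e i) ∧ ∑ i, e i = ℓ + 4 ∧
      s + 4 ≤ k + ∑ T ∈ (univ : Finset (Fin k)).powersetCard 3,
        (ramsey T (fun i => e i + 1) - 1)) ∨ s + 4 ≤ (ℓ + 4).choose 3 := by
  classical
  have herase : ∀ x : X, (univ.erase x).card = s + 3 := by
    intro x; rw [card_erase_of_mem (mem_univ _), card_univ, hX]; rfl
  have hmin : ∀ (r : ρ) (S : Finset X), S.Nonempty →
      ∃ x ∈ S, ∀ b ∈ S, b ≠ x → key r x < key r b := by
    intro r S hS
    obtain ⟨x, hx, h⟩ := exists_min_image S (key r) hS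
    exact ⟨x, hx, fun b hb hne => lt_of_le_of_ne (h b hb) (fun h' => hne (hinj r h').symm)⟩
  have hex : ∀ r : ρ, ∃ x y : X, y ≠ x ∧ (∀ b, b ≠ x → key r x < key r b) ∧
      ∀ b, b ≠ x → b ≠ y → key r y < key r b := by
    intro r
    obtain ⟨x, -, hx⟩ := hmin r univ (card_pos.1 (by rw [card_univ, hX]; omega))
    obtain ⟨y, hy, hy'⟩ := hmin r (univ.erase x) (card_pos.1 (by rw [herase]; omega))
    exact ⟨x, y, (mem_erase.1 hy).1, fun b hb => hx b (mem_univ _) hb,
      fun b hb hb' => hy' b (mem_erase.2 ⟨hb, mem_univ _⟩) hb'⟩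
  choose f1 f2 hf12 hf1 hf2 using hex
  let a : X → ℕ := fun x => (univ.filter (fun r => f1 r = x)).card
  have hsuma : ∑ x, a x = (s + 2) ^ 2 + ℓ := by
    rw [← hρ, ← card_univ]
    exact (card_eq_sum_card_fiberwise (fun r _ => mem_univ (f1 r))).symm
  have ha : ∀ x, s ≤ a x := by
    intro x
    obtain ⟨Q, hQ, h⟩ := hc x (univ.erase x) (notMem_erase _ _)
    have : Q ⊆ univ.filter (fun r => f1 r = x) := by
      intro r hr
      refine mem_filter.2 ⟨mem_univ _, ?_⟩
      by_contra hne
      exact lt_asymm (hQ r hr _ (mem_erase.2 ⟨hne, mem_univ _⟩)) (hf1 r x (Ne.symm hne))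
    have h2 := card_le_card this
    rw [herase] at h
    change Q.card ≤ a x at h2
    omega
  let e : X → ℕ := fun x => a x - s
  have hae : ∀ x, a x = s + e x := fun x => by have := ha x; simp only [e]; omega
  have hsume : ∑ x, e x = ℓ + 4 := by
    simp only [hae, sum_add_distrib, sum_const, card_univ, hX, smul_eq_mul] at hsuma
    nlinarith
  have hC : ∀ σ (U : Finset X), σ ∉ U → U.card = e σ + 1 →
      ∃ r, f1 r ∈ U ∧ ∀ b, b ∉ U → b ≠ σ → key r σ < key r b := by
    intro σ U hσ hU
    have hsub : U ⊆ univ.erase σ := fun b hb => mem_erase.2 ⟨fun h => hσ (h ▸ hb), mem_univ _⟩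
    obtain ⟨Q, hQ, h⟩ := hc σ (univ.erase σ \ U) (fun h => notMem_erase _ _ (mem_sdiff.1 h).1)
    have h1 := card_sdiff_add_card_eq_card hsub
    rw [herase] at h1
    have h2 := hae σ
    obtain ⟨r, hr1, hr2⟩ := exists_mem_notMem_of_card_lt_card
      (show (univ.filter (fun r => f1 r = σ)).card < Q.card by change a σ < _; omega)
    have hr3 : f1 r ≠ σ := fun h => hr2 (mem_filter.2 ⟨mem_univ _, h⟩)
    have hr4 : ∀ b, b ∉ U → b ≠ σ → key r σ < key r b := fun b hb hb' =>
      hQ r hr1 b (mem_sdiff.2 ⟨mem_erase.2 ⟨hb', mem_univ _⟩, hb⟩)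
    refine ⟨r, ?_, hr4⟩
    by_contra hne
    exact lt_asymm (hr4 _ hne hr3) (hf1 r σ hr3.symm)
  let mult : X → X → ℕ := fun x y => (univ.filter (fun r => f1 r = x ∧ f2 r = y)).card
  let M : X → Finset X := fun x => (univ.erase x).filter (fun y => mult x y = 0)
  let D : X → Finset X := fun x => (univ.erase x).filter (fun y => 2 ≤ mult x y)
  have hineq : ∀ x, 3 + (D x).card ≤ e x + (M x).card := by
    intro x
    have h1 : a x = ∑ y ∈ univ.erase x, mult x y := by
      simp only [a]
      rw [card_eq_sum_card_fiberwise (s := univ.filter (fun r => f1 r = x)) (f := f2)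
        (t := univ.erase x) (by
          intro r hr
          have := (mem_filter.1 hr).2
          exact mem_erase.2 ⟨this ▸ hf12 r, mem_univ _⟩)]
      simp only [mult, filter_filter]
    have h2 : ∑ y ∈ univ.erase x, (1 + if 2 ≤ mult x y then 1 else 0) ≤
        ∑ y ∈ univ.erase x, (mult x y + if mult x y = 0 then 1 else 0) :=
      sum_le_sum (fun y _ => by split_ifs <;> omega)
    rw [sum_add_distrib, sum_add_distrib, ← card_filter, ← card_filter, ← h1, sum_const, herase,
      hae] at h2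
    simp only [smul_eq_mul, mul_one] at h2
    change s + 3 + (D x).card ≤ s + e x + (M x).card at h2
    omega
  have hmult : ∀ r, mult (f1 r) (f2 r) ≠ 0 := fun r =>
    (card_pos.2 ⟨r, mem_filter.2 ⟨mem_univ _, rfl, rfl⟩⟩).ne'
  have hC2 : ∀ σ (U : Finset X), σ ∉ U → U.card = e σ + 1 → (∀ u ∈ U, σ ∈ M u) →
      ∃ r, f1 r ∈ U ∧ f2 r ∈ U ∧ ∀ b, b ∉ U → b ≠ σ → key r σ < key r b := by
    intro σ U hσ hU hM
    obtain ⟨r, h1, h2⟩ := hC σ U hσ hU
    refine ⟨r, h1, ?_, h2⟩
    have h3 : f2 r ≠ σ := fun h => hmult r (h ▸ (mem_filter.1 (hM _ h1)).2)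
    by_contra hne
    exact lt_asymm (h2 _ hne h3) (hf2 r σ (fun h => hσ (h ▸ h1)) h3.symm)
  let K : Finset X := univ.filter (fun x => 1 ≤ e x)
  have hMK : ∀ x, M x ⊆ K := by
    intro x y hy
    refine mem_filter.2 ⟨mem_univ _, ?_⟩
    by_contra h0
    have hyx : y ≠ x := (mem_erase.1 (mem_filter.1 hy).1).1
    obtain ⟨r, h1, h2, -⟩ := hC2 y {x} (by simpa using hyx) (by simp; omega) (by simpa using hy)
    exact hf12 r ((mem_singleton.1 h2).trans (mem_singleton.1 h1).symm)
  have hsumK : ∑ x ∈ K, e x = ℓ + 4 := by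
    rw [← hsume]
    refine sum_subset (subset_univ _) (fun x _ hx => ?_)
    have : ¬ 1 ≤ e x := fun h => hx (mem_filter.2 ⟨mem_univ _, h⟩)
    omega
  let P : Sym2 X → Finset ρ := fun p => univ.filter (fun r => s(f1 r, f2 r) = p)
  have hP : ∀ x y, (P s(x, y)).card ≤ mult x y + mult y x := by
    intro x y
    refine le_trans (card_le_card ?_) (card_union_le _ _)
    intro r hr
    rcases Sym2.eq_iff.1 (mem_filter.1 hr).2 with h | h
    · exact mem_union_left _ (mem_filter.2 ⟨mem_univ _, h⟩)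
    · exact mem_union_right _ (mem_filter.2 ⟨mem_univ _, h⟩)
  have hD : ∀ x y, x ≠ y → y ∉ D x → mult x y ≤ 1 := by
    intro x y hxy h
    by_contra h2
    exact h (mem_filter.2 ⟨mem_erase.2 ⟨hxy.symm, mem_univ _⟩, by omega⟩)
  by_cases hall : ∀ x ∈ K, e x = 1
  · right
    have hk : K.card = ℓ + 4 := by
      rw [← hsumK, sum_congr rfl hall]; simp
    let Mb : X → Finset X := fun x => if x ∈ K then insert x (M x) else M x
    have hMb : ∀ x y, y ∈ Mb x → y ≠ x → y ∈ M x := by
      intro x y h hne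
      simp only [Mb] at h
      split_ifs at h
      · exact (mem_insert.1 h).resolve_left hne
      · exact h
    have hMbK : ∀ x, Mb x ⊆ K := by
      intro x
      simp only [Mb]
      split_ifs with h
      · exact insert_subset h (hMK x)
      · exact hMK x
    obtain ⟨f, hfL, hfD⟩ := list_colouring D (fun x => (Mb x).powersetCard 3) univ (by
      intro x _
      rw [card_powersetCard]
      apply two_mul_lt_choose
      have h1 := hineq x
      simp only [Mb]
      split_ifs with h
      · have hxM : x ∉ M x := fun h' => notMem_erase _ _ (mem_filter.1 h').1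
        rw [card_insert_of_notMem hxM]
        rw [hall x h] at h1
        omega
      · have : ¬ 1 ≤ e x := fun h' => h (mem_filter.2 ⟨mem_univ _, h'⟩)
        omega)
    have hfinj : Function.Injective f := by
      intro x y hxy
      by_contra hne
      have hx := mem_powersetCard.1 (hfL x (mem_univ _))
      have hy := mem_powersetCard.1 (hfL y (mem_univ _))
      have m1 := hD x y hne (fun h => hfD x (mem_univ _) y (mem_univ _) hne h hxy)
      have m2 := hD y x (Ne.symm hne)
        (fun h => hfD y (mem_univ _) x (mem_univ _) (Ne.symm hne) h hxy.symm)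
      have hrow : ∀ σ ∈ f x \ {x, y}, ∃ r ∈ P s(x, y),
          ∀ b, b ∉ ({x, y} : Finset X) → b ≠ σ → key r σ < key r b := by
        intro σ hσ
        obtain ⟨h1, h2⟩ := mem_sdiff.1 hσ
        have h3 : σ ≠ x ∧ σ ≠ y := by simpa using h2
        obtain ⟨r, a1, a2, a3⟩ := hC2 σ {x, y} h2
          (by rw [card_pair hne, hall σ (hMbK x (hx.1 h1))]) (by
            intro u hu
            rcases mem_insert.1 hu with rfl | hu
            · exact hMb _ _ (hx.1 h1) h3.1
            · rw [mem_singleton.1 hu]; exact hMb _ _ (hy.1 (hxy ▸ h1)) h3.2)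
        refine ⟨r, mem_filter.2 ⟨mem_univ _, ?_⟩, a3⟩
        have := hf12 r
        simp only [mem_insert, mem_singleton] at a1 a2
        rcases a1 with a1 | a1 <;> rcases a2 with a2 | a2
        · exact (this (a2.trans a1.symm)).elim
        · rw [a1, a2]
        · rw [a1, a2, Sym2.eq_swap]
        · exact (this (a2.trans a1.symm)).elim
      have : Nonempty ρ := Fintype.card_pos_iff.1 (by rw [hρ]; positivity)
      choose! g hg1 hg2 using hrow
      have h4 : (f x \ {x, y}).card ≤ (P s(x, y)).card := by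
        refine card_le_card_of_injOn g (fun σ hσ => hg1 σ hσ) ?_
        intro σ hσ σ' hσ' hgg
        rw [mem_coe] at hσ hσ'
        by_contra hne'
        have b1 := hg2 σ hσ σ' (mem_sdiff.1 hσ').2 (Ne.symm hne')
        have b2 := hg2 σ' hσ' σ (mem_sdiff.1 hσ).2 hne'
        rw [hgg] at b1
        exact lt_asymm b1 b2
      have h5 := hP x y
      have z1 : y ∈ f x → mult x y = 0 := fun h =>
        (mem_filter.1 (hMb _ _ (hx.1 h) (Ne.symm hne))).2
      have z2 : x ∈ f x → mult y x = 0 := fun h =>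
        (mem_filter.1 (hMb _ _ (hy.1 (hxy ▸ h)) hne)).2
      have h6 := card_sdiff_add_card_inter (f x) {x, y}
      rw [hx.2] at h6
      by_cases c1 : x ∈ f x <;> by_cases c2 : y ∈ f x
      · have := card_le_card (inter_subset_right (s₁ := f x) (s₂ := {x, y}))
        rw [card_pair hne] at this
        have := z1 c2
        have := z2 c1
        omega
      · have : (f x ∩ {x, y}).card ≤ 1 := by
          refine card_le_one.2 ?_
          intro u hu v hv
          simp only [mem_inter, mem_insert, mem_singleton] at hu hv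
          have hu' : u = x := hu.2.resolve_right (fun h => c2 (h ▸ hu.1))
          have hv' : v = x := hv.2.resolve_right (fun h => c2 (h ▸ hv.1))
          rw [hu', hv']
        have := z2 c1
        omega
      · have : (f x ∩ {x, y}).card ≤ 1 := by
          refine card_le_one.2 ?_
          intro u hu v hv
          simp only [mem_inter, mem_insert, mem_singleton] at hu hv
          have hu' : u = y := hu.2.resolve_left (fun h => c1 (h ▸ hu.1))
          have hv' : v = y := hv.2.resolve_left (fun h => c1 (h ▸ hv.1))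
          rw [hu', hv']
        have := z1 c2
        omega
      · have : (f x ∩ {x, y}).card = 0 := by
          rw [card_eq_zero]
          refine eq_empty_of_forall_notMem (fun u hu => ?_)
          simp only [mem_inter, mem_insert, mem_singleton] at hu
          rcases hu.2 with h | h
          · exact c1 (h ▸ hu.1)
          · exact c2 (h ▸ hu.1)
        omega
    rw [← hX, ← hk, ← card_powersetCard, ← card_univ]
    refine card_le_card_of_injOn f (fun x _ => ?_) hfinj.injOn
    have hx := mem_powersetCard.1 (hfL x (mem_univ _))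
    exact mem_powersetCard.2 ⟨hx.1.trans (hMbK x), hx.2⟩
  · left
    push Not at hall
    obtain ⟨x1, hx1, hx1'⟩ := hall
    have hk : K.card ≤ ℓ + 3 := by
      have h1 : ∑ x ∈ K, 1 < ∑ x ∈ K, e x :=
        sum_lt_sum (fun x hx => (mem_filter.1 hx).2)
          ⟨x1, hx1, lt_of_le_of_ne (mem_filter.1 hx1).2 hx1'.symm⟩
      rw [hsumK] at h1
      simp only [sum_const, smul_eq_mul, mul_one] at h1
      omega
    let g : Fin K.card ↪ X := K.equivFin.symm.toEmbedding.trans (Function.Embedding.subtype _)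
    have hgK : ∀ i, g i ∈ K := fun i => (K.equivFin.symm i).2
    have hgsurj : ∀ x ∈ K, ∃ i, g i = x := fun x hx => ⟨K.equivFin ⟨x, hx⟩, by simp [g]⟩
    have hgmap : univ.map g = K := by
      ext x
      simp only [mem_map, mem_univ, true_and]
      exact ⟨fun ⟨i, hi⟩ => hi ▸ hgK i, hgsurj x⟩
    let M' : X → Finset (Fin K.card) := fun x => univ.filter (fun i => g i ∈ M x)
    have hM' : ∀ x, (M' x).card = (M x).card := by
      intro x
      rw [← card_map g]
      congr 1
      ext y
      constructor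
      · intro hy
        obtain ⟨i, hi, rfl⟩ := mem_map.1 hy
        exact (mem_filter.1 hi).2
      · intro hy
        obtain ⟨i, rfl⟩ := hgsurj y (hMK x hy)
        exact mem_map.2 ⟨i, mem_filter.2 ⟨mem_univ _, hy⟩, rfl⟩
    let R : Finset X := univ \ K
    have hRe : ∀ x ∈ R, e x = 0 := by
      intro x hx
      have : ¬ 1 ≤ e x := fun h' => (mem_sdiff.1 hx).2 (mem_filter.2 ⟨mem_univ _, h'⟩)
      omega
    have hRcard : R.card + K.card = s + 4 := by
      rw [card_sdiff_add_card_eq_card (subset_univ _), card_univ, hX]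
    have hM3 : ∀ x ∈ R, 3 + (D x).card ≤ (M' x).card := by
      intro x hx
      have := hineq x
      rw [hRe x hx] at this
      rw [hM']; omega
    obtain ⟨f, hfL, hfD⟩ := list_colouring D (fun x => (M' x).powersetCard 3) R (by
      intro x hx
      rw [card_powersetCard]
      exact two_mul_lt_choose (hM3 x hx))
    refine ⟨K.card, fun i => e (g i), ?_, hk, fun i => (mem_filter.1 (hgK i)).2, ?_, ?_⟩
    · rcases R.eq_empty_or_nonempty with h | ⟨x, hx⟩
      · rw [h, card_empty] at hRcard; omega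
      · have h1 := hM3 x hx
        have h2 := card_le_univ (M' x)
        rw [Fintype.card_fin] at h2
        omega
    · rw [← hsumK]
      conv_rhs => rw [← hgmap, sum_map]
    · have hκ : ∀ r : ρ, ∃ i : Fin K.card, ∀ j, j ≠ i → key r (g i) < key r (g j) := by
        intro r
        obtain ⟨x, hx, h⟩ := hmin r K ⟨x1, hx1⟩
        obtain ⟨i, rfl⟩ := hgsurj x hx
        exact ⟨i, fun j hj => h _ (hgK j) (fun h' => hj (g.injective h'))⟩
      choose κ hκ using hκ
      have hclass : ∀ T ∈ (univ : Finset (Fin K.card)).powersetCard 3,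
          (R.filter (fun x => f x = T)).card ≤ ramsey T (fun i => e (g i) + 1) - 1 := by
        intro T hT
        have hT3 := (mem_powersetCard.1 hT).2
        by_contra hbig
        have hcol : ∀ p : Sym2 X, ∃ i ∈ T, (P p).card ≤ 2 → i ∉ (P p).image κ := by
          intro p
          by_cases h : (P p).card ≤ 2
          · obtain ⟨i, h1, h2⟩ := exists_mem_notMem_of_card_lt_card
              (show ((P p).image κ).card < T.card from
                lt_of_le_of_lt card_image_le (by omega))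
            exact ⟨i, h1, fun _ => h2⟩
          · obtain ⟨i, hi⟩ := card_pos.1 (show 0 < T.card by omega)
            exact ⟨i, hi, fun h' => (h h').elim⟩
        choose c hc1 hc2 using hcol
        obtain ⟨i, hi, U, hU, hcard, hmono⟩ := (arrows_ramsey T hT3.le (fun i => e (g i))).spec
          (R.filter (fun x => f x = T)) (by omega) c hc1
        have hUR : ∀ u ∈ U, u ∈ R ∧ f u = T := fun u hu => mem_filter.1 (hU hu)
        have hUK : ∀ j, g j ∉ U := fun j h => (mem_sdiff.1 (hUR _ h).1).2 (hgK j)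
        obtain ⟨r, a1, a2, a3⟩ := hC2 (g i) U (hUK i) hcard (by
          intro u hu
          have h1 := (mem_powersetCard.1 (hfL u (hUR u hu).1)).1
          rw [(hUR u hu).2] at h1
          exact (mem_filter.1 (h1 hi)).2)
        have hne := (hf12 r).symm
        have hff : f (f1 r) = f (f2 r) := (hUR _ a1).2.trans (hUR _ a2).2.symm
        have m1 := hD _ _ hne (fun h => hfD _ (hUR _ a1).1 _ (hUR _ a2).1 hne h hff)
        have m2 := hD _ _ hne.symm
          (fun h => hfD _ (hUR _ a2).1 _ (hUR _ a1).1 hne.symm h hff.symm)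
        have h5 := hP (f1 r) (f2 r)
        apply hc2 s(f1 r, f2 r) (by omega)
        rw [hmono _ a1 _ a2 hne]
        refine mem_image.2 ⟨r, mem_filter.2 ⟨mem_univ _, rfl⟩, ?_⟩
        by_contra hκi
        exact lt_asymm (hκ r i (Ne.symm hκi))
          (a3 _ (hUK _) (fun h => hκi (g.injective h)))
      have h1 : R.card = ∑ T ∈ (univ : Finset (Fin K.card)).powersetCard 3,
          (R.filter (fun x => f x = T)).card :=
        card_eq_sum_card_fiberwise (fun x hx =>
          mem_powersetCard.2 ⟨subset_univ _, (mem_powersetCard.1 (hfL x hx)).2⟩)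
      have h2 := sum_le_sum hclass
      rw [← h1] at h2
      beta_reduce
      omega

end Pool.Agent.MP_cb8ad4_co

end

-- part MP_cb8ad4_co.Small
section

/-!
Upper bounds for small three-colour Ramsey numbers.
-/

namespace Pool.Agent.MP_cb8ad4_co

open Finset

lemma arrows_transport {ι : Type} {T : Finset ι} {m : ι → ℕ} {n : ℕ} (g : Fin 3 → ι)
    (hg1 : ∀ a, g a ∈ T) (hg2 : ∀ i ∈ T, ∃ a, g a = i) (m' : Fin 3 → ℕ) (hm : ∀ a, m' a = m (g a))
    (h : Arrows univ m' n) : Arrows T m n := by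
  intro c hc
  choose c' hc' using fun p => hg2 (c p) (hc p)
  obtain ⟨a, -, U, h1, h2⟩ := h c' (fun _ => mem_univ _)
  exact ⟨g a, hg1 a, U, h1.trans (hm a), fun x hx y hy hxy => by rw [← hc', h2 x hx y hy hxy]⟩

lemma extend_clique {N n : ℕ} {m : Fin 3 → ℕ} (c : Sym2 (Fin N) → Fin 3) (x : Fin N) (i : Fin 3)
    (hm : 1 ≤ m i) (h : Arrows univ (Function.update m i (m i - 1)) n)
    (hn : n ≤ ((univ.erase x).filter (fun y => c s(x, y) = i)).card) :
    ∃ j ∈ (univ : Finset (Fin 3)), ∃ U : Finset (Fin N), U.card = m j ∧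
      ∀ a ∈ U, ∀ b ∈ U, a ≠ b → c s(a, b) = j := by
  obtain ⟨j, hj, U, hU, hcard, hmono⟩ := h.spec _ hn c (fun _ => mem_univ _)
  by_cases hji : j = i
  · subst hji
    have hxU : x ∉ U := fun h => (mem_erase.1 (mem_filter.1 (hU h)).1).1 rfl
    refine ⟨j, hj, insert x U, ?_, ?_⟩
    · rw [card_insert_of_notMem hxU, hcard, Function.update_self]; omega
    · intro a ha b hb hab
      rcases mem_insert.1 ha with rfl | ha' <;> rcases mem_insert.1 hb with rfl | hb'
      · exact (hab rfl).elim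
      · exact (mem_filter.1 (hU hb')).2
      · rw [Sym2.eq_swap]; exact (mem_filter.1 (hU ha')).2
      · exact hmono a ha' b hb' hab
  · exact ⟨j, hj, U, by rw [hcard, Function.update_of_ne hji], hmono⟩

lemma deg_sum {N : ℕ} (c : Sym2 (Fin N) → Fin 3) (x : Fin N) :
    ((univ.erase x).filter (fun y => c s(x, y) = 0)).card +
      ((univ.erase x).filter (fun y => c s(x, y) = 1)).card +
      ((univ.erase x).filter (fun y => c s(x, y) = 2)).card + 1 = N := by
  have h := card_eq_sum_card_fiberwise (s := univ.erase x) (t := (univ : Finset (Fin 3)))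
    (f := fun y => c s(x, y)) (fun _ _ => mem_univ _)
  rw [Fin.sum_univ_three, card_erase_of_mem (mem_univ _), card_univ, Fintype.card_fin] at h
  have := x.pos
  omega

lemma arrows_one {m : Fin 3 → ℕ} (i : Fin 3) (h : m i = 1) : Arrows univ m 1 :=
  fun _ _ => ⟨i, mem_univ _, {0}, by simp [h], by simp⟩

lemma arrows_step (a b c n0 n1 n2 : ℕ) (h0 : Arrows univ ![a, b + 1, c + 1] n0)
    (h1 : Arrows univ ![a + 1, b, c + 1] n1) (h2 : Arrows univ ![a + 1, b + 1, c] n2)
    (p0 : 1 ≤ n0) (p1 : 1 ≤ n1) (p2 : 1 ≤ n2) :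
    Arrows univ ![a + 1, b + 1, c + 1] (n0 + n1 + n2 - 1) := by
  intro col _
  let x : Fin (n0 + n1 + n2 - 1) := ⟨0, by omega⟩
  have hs := deg_sum col x
  by_cases c0 : n0 ≤ ((univ.erase x).filter (fun y => col s(x, y) = 0)).card
  · refine extend_clique col x 0 (by simp) ?_ c0
    have : Function.update ![a + 1, b + 1, c + 1] 0 (![a + 1, b + 1, c + 1] 0 - 1) =
        ![a, b + 1, c + 1] := by
      funext i; fin_cases i <;> simp
    rwa [this]
  by_cases c1 : n1 ≤ ((univ.erase x).filter (fun y => col s(x, y) = 1)).card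
  · refine extend_clique col x 1 (by simp) ?_ c1
    have : Function.update ![a + 1, b + 1, c + 1] 1 (![a + 1, b + 1, c + 1] 1 - 1) =
        ![a + 1, b, c + 1] := by
      funext i; fin_cases i <;> simp
    rwa [this]
  · refine extend_clique col x 2 (by simp) ?_ (show n2 ≤ _ by omega)
    have : Function.update ![a + 1, b + 1, c + 1] 2 (![a + 1, b + 1, c + 1] 2 - 1) =
        ![a + 1, b + 1, c] := by
      funext i; fin_cases i <;> simp
    rwa [this]

lemma arrows_432 : Arrows univ ![4, 3, 2] 9 := by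
  have a222 : Arrows univ ![2, 2, 2] 2 :=
    arrows_step 1 1 1 1 1 1 (arrows_one 0 rfl) (arrows_one 1 rfl) (arrows_one 2 rfl)
      le_rfl le_rfl le_rfl
  have a322 : Arrows univ ![3, 2, 2] 3 :=
    arrows_step 2 1 1 2 1 1 a222 (arrows_one 1 rfl) (arrows_one 2 rfl) (by norm_num) le_rfl le_rfl
  have a232 : Arrows univ ![2, 3, 2] 3 :=
    arrows_step 1 2 1 1 2 1 (arrows_one 0 rfl) a222 (arrows_one 2 rfl) le_rfl (by norm_num) le_rfl
  have a422 : Arrows univ ![4, 2, 2] 4 :=
    arrows_step 3 1 1 3 1 1 a322 (arrows_one 1 rfl) (arrows_one 2 rfl) (by norm_num) le_rfl le_rfl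
  have a332 : Arrows univ ![3, 3, 2] 6 :=
    arrows_step 2 2 1 3 3 1 a232 a322 (arrows_one 2 rfl) (by norm_num) (by norm_num) le_rfl
  intro col _
  by_contra hcon
  have hdeg : ∀ x : Fin 9, ((univ.erase x).filter (fun y => col s(x, y) = 1)).card = 3 := by
    intro x
    have hs := deg_sum col x
    have c0 : ¬ 6 ≤ ((univ.erase x).filter (fun y => col s(x, y) = 0)).card := fun h =>
      hcon (extend_clique col x 0 (by simp) (by
        have : Function.update ![4, 3, 2] 0 (![4, 3, 2] 0 - 1) = ![3, 3, 2] := by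
          funext i; fin_cases i <;> simp
        rwa [this]) h)
    have c1 : ¬ 4 ≤ ((univ.erase x).filter (fun y => col s(x, y) = 1)).card := fun h =>
      hcon (extend_clique col x 1 (by simp) (by
        have : Function.update ![4, 3, 2] 1 (![4, 3, 2] 1 - 1) = ![4, 2, 2] := by
          funext i; fin_cases i <;> simp
        rwa [this]) h)
    have c2 : ¬ 1 ≤ ((univ.erase x).filter (fun y => col s(x, y) = 2)).card := fun h =>
      hcon (extend_clique col x 2 (by simp) (arrows_one 2 (by simp)) h)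
    omega
  let G : SimpleGraph (Fin 9) :=
    { Adj := fun x y => x ≠ y ∧ col s(x, y) = 1
      symm := ⟨fun x y h => ⟨h.1.symm, by rw [Sym2.eq_swap]; exact h.2⟩⟩
      loopless := ⟨fun x h => h.1 rfl⟩ }
  classical
  have h := G.sum_degrees_eq_twice_card_edges
  have hd : ∀ x, G.degree x = 3 := by
    intro x
    rw [← hdeg x, ← SimpleGraph.card_neighborFinset_eq_degree]
    congr 1
    ext y
    simp [G, eq_comm]
  simp only [hd, sum_const, card_univ, Fintype.card_fin, smul_eq_mul] at h
  omega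

/-- A recursive upper bound. -/
def rb : ℕ → ℕ → ℕ → ℕ → ℕ
  | 0, _, _, _ => 1
  | n + 1, a, b, c => if a = 0 ∨ b = 0 ∨ c = 0 then 1 else
      if a * b * c = 6 ∧ a + b + c = 6 then 9 else
        rb n (a - 1) b c + rb n a (b - 1) c + rb n a b (c - 1) - 1

lemma rb_pos (n : ℕ) : ∀ a b c, 1 ≤ rb n a b c := by
  induction n with
  | zero => intro a b c; simp [rb]
  | succ n ih =>
    intro a b c
    have h1 := ih (a - 1) b c
    have h2 := ih a (b - 1) c
    have h3 := ih a b (c - 1)
    simp only [rb]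
    split_ifs <;> omega

lemma arrows_rb (n : ℕ) : ∀ a b c, a + b + c < n →
    Arrows univ ![a + 1, b + 1, c + 1] (rb n a b c) := by
  induction n with
  | zero => intro a b c h; omega
  | succ n ih =>
    intro a b c h
    simp only [rb]
    split_ifs with h1 h2
    · rcases h1 with rfl | rfl | rfl
      · exact arrows_one 0 rfl
      · exact arrows_one 1 rfl
      · exact arrows_one 2 rfl
    · obtain ⟨h3, h4⟩ := h2
      have ha : a ≤ 6 := by omega
      have hb : b ≤ 6 := by omega
      obtain rfl : c = 6 - a - b := by omega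
      have key : ∀ g : Fin 3 → Fin 3, (∀ i, ∃ j, g j = i) → ∀ m : Fin 3 → ℕ,
          (∀ j, ![4, 3, 2] j = m (g j)) → Arrows univ m 9 := fun g hg m hm =>
        arrows_transport g (fun _ => mem_univ _) (fun i _ => hg i) _ hm arrows_432
      interval_cases a <;> interval_cases b <;> simp at h3 h4
      · exact key ![2, 1, 0] (by decide) _ (by decide)
      · exact key ![1, 2, 0] (by decide) _ (by decide)
      · exact key ![2, 0, 1] (by decide) _ (by decide)
      · exact key ![1, 0, 2] (by decide) _ (by decide)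
      · exact key ![0, 2, 1] (by decide) _ (by decide)
      · exact key ![0, 1, 2] (by decide) _ (by decide)
    · push Not at h1
      obtain ⟨a, rfl⟩ := Nat.exists_eq_succ_of_ne_zero h1.1
      obtain ⟨b, rfl⟩ := Nat.exists_eq_succ_of_ne_zero h1.2.1
      obtain ⟨c, rfl⟩ := Nat.exists_eq_succ_of_ne_zero h1.2.2
      exact arrows_step _ _ _ _ _ _ (ih a (b + 1) (c + 1) (by omega))
        (ih (a + 1) b (c + 1) (by omega)) (ih (a + 1) (b + 1) c (by omega))
        (rb_pos _ _ _ _) (rb_pos _ _ _ _) (rb_pos _ _ _ _)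

/-- The bound as a function of the sum and the product of the three parameters. -/
def tab (s p : ℕ) : ℕ :=
  if s = 3 then 2 else if s = 4 then 3 else if s = 5 then (if p = 3 then 4 else 6) else
  if s = 6 then (if p = 4 then 5 else if p = 6 then 9 else 17) else
  if p = 5 then 6 else if p = 8 then 14 else if p = 9 then 18 else 34

lemma ramsey_le_tab {ι : Type} [DecidableEq ι] (T : Finset ι) (hT : T.card = 3) (e : ι → ℕ)
    (he : ∀ i, 1 ≤ e i) (hs : ∑ i ∈ T, e i ≤ 7) :
    ramsey T (fun i => e i + 1) ≤ tab (∑ i ∈ T, e i) (∏ i ∈ T, e i) := by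
  obtain ⟨i, j, l, hij, hil, hjl, rfl⟩ := card_eq_three.1 hT
  rw [sum_insert (by simp [hij, hil]), sum_pair hjl] at hs ⊢
  rw [prod_insert (by simp [hij, hil]), prod_pair hjl]
  have h1 : ramsey {i, j, l} (fun i => e i + 1) ≤ rb 8 (e i) (e j) (e l) :=
    ramsey_le (arrows_transport ![i, j, l] (by intro a; fin_cases a <;> simp)
      (by
        intro x hx
        simp only [mem_insert, mem_singleton] at hx
        rcases hx with rfl | rfl | rfl
        · exact ⟨0, rfl⟩
        · exact ⟨1, rfl⟩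
        · exact ⟨2, rfl⟩) _ (by intro a; fin_cases a <;> rfl)
      (arrows_rb 8 (e i) (e j) (e l) (by omega)))
  refine h1.trans ?_
  have a1 := he i
  have a2 := he j
  have a3 := he l
  generalize e i = a at *
  generalize e j = b at *
  generalize e l = c at *
  have b1 : a ≤ 5 := by omega
  have b2 : b ≤ 5 := by omega
  have b3 : c ≤ 5 := by omega
  interval_cases a <;> interval_cases b <;> interval_cases c <;> first | omega | decide

lemma small_check : ∀ ℓ ∈ range 4, ∀ k ∈ Icc 3 (ℓ + 3),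
    ∀ d ∈ Finset.Nat.antidiagonalTuple k (ℓ + 4 - k),
      k - 2 + ∑ T ∈ (univ : Finset (Fin k)).powersetCard 3,
        (tab (∑ i ∈ T, (d i + 1)) (∏ i ∈ T, (d i + 1)) - 1) + 1 ≤ (ℓ + 4).choose 3 := by
  decide +kernel

lemma small_values {ℓ n : ℕ} (hℓ : ℓ ≤ 3) (hn : n ∈ ramseyValues ℓ) : n + 1 ≤ (ℓ + 4).choose 3 := by
  obtain ⟨k, e, h1, h2, h3, h4, rfl⟩ := hn
  have he : ∀ i, e i - 1 + 1 = e i := fun i => Nat.sub_add_cancel (h3 i)
  have h5 := small_check ℓ (mem_range.2 (by omega)) k (mem_Icc.2 ⟨h1, h2⟩) (fun i => e i - 1) (by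
    rw [Finset.Nat.mem_antidiagonalTuple]
    have : ∑ i, (e i - 1 + 1) = ℓ + 4 := by simp only [he, h4]
    rw [sum_add_distrib] at this
    simp only [sum_const, card_univ, Fintype.card_fin, smul_eq_mul, mul_one] at this
    omega)
  simp only [he] at h5
  refine le_trans ?_ h5
  have : ∑ T ∈ (univ : Finset (Fin k)).powersetCard 3, (ramsey T (fun i => e i + 1) - 1) ≤
      ∑ T ∈ (univ : Finset (Fin k)).powersetCard 3, (tab (∑ i ∈ T, e i) (∏ i ∈ T, e i) - 1) := by
    refine sum_le_sum (fun T hT => Nat.sub_le_sub_right ?_ 1)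
    refine ramsey_le_tab T (mem_powersetCard.1 hT).2 e h3 ?_
    have := sum_le_sum_of_subset (f := e) (subset_univ T)
    omega
  omega

end Pool.Agent.MP_cb8ad4_co

end

-- part MP_cb8ad4_co.Main
section

/-!
The threshold `s₀(ℓ)` is the largest of the Ramsey values.
-/

namespace Pool.Agent.MP_cb8ad4_co

open Finset

lemma choose_three_le (j : ℕ) : (j + 3).choose 3 ≤ 2 * 3 ^ j := by
  induction j with
  | zero => simp
  | succ j ih =>
    rcases Nat.eq_zero_or_pos j with rfl | hj
    · decide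
    have h := Nat.choose_mul_succ_eq (j + 3) 3
    have e : j + 3 + 1 - 3 = j + 1 := by omega
    rw [e] at h
    have h2 : (j + 3 + 1).choose 3 * (j + 1) ≤ (3 * (j + 3).choose 3) * (j + 1) := by
      rw [← h]; nlinarith
    have h3 := Nat.le_of_mul_le_mul_right h2 (by omega)
    rw [show j + 1 + 3 = j + 3 + 1 by ring, pow_succ]
    omega

lemma value_le {ℓ n : ℕ} (hn : n ∈ ramseyValues ℓ) : n ≤ 3 ^ (ℓ + 5) := by
  obtain ⟨k, e, h1, h2, h3, h4, rfl⟩ := hn
  obtain ⟨j, rfl⟩ := Nat.exists_eq_add_of_le' h1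
  obtain ⟨m, hm⟩ : ∃ m, ℓ + 4 = m + j := ⟨ℓ + 4 - j, by omega⟩
  have hT : ∀ T ∈ (univ : Finset (Fin (j + 3))).powersetCard 3,
      ramsey T (fun i => e i + 1) - 1 ≤ 3 ^ m := by
    intro T hT
    have hT3 := (mem_powersetCard.1 hT).2
    refine (Nat.sub_le _ _).trans ((ramsey_le_pow T hT3.le e).trans ?_)
    apply Nat.pow_le_pow_right (by norm_num)
    have a1 := sum_sdiff (f := e) (subset_univ T)
    have a2 : (univ \ T).card • 1 ≤ ∑ i ∈ univ \ T, e i := card_nsmul_le_sum _ _ _ (fun i _ => h3 i)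
    rw [card_sdiff_of_subset (subset_univ _), hT3, card_univ, Fintype.card_fin, smul_eq_mul] at a2
    omega
  have h5 := sum_le_card_nsmul _ _ _ hT
  rw [card_powersetCard, card_univ, Fintype.card_fin, smul_eq_mul] at h5
  have h6 : (j + 3).choose 3 * 3 ^ m ≤ 2 * 3 ^ (ℓ + 4) := by
    rw [hm, pow_add]
    nlinarith [choose_three_le j, Nat.pos_of_ne_zero (pow_ne_zero m (by norm_num : (3 : ℕ) ≠ 0))]
  have h7 : ℓ + 4 < 3 ^ (ℓ + 4) := Nat.lt_pow_self (by norm_num)
  rw [show ℓ + 5 = ℓ + 4 + 1 by ring, pow_succ]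
  omega

lemma exists_value_ge (ℓ : ℕ) : ∃ n ∈ ramseyValues ℓ, (ℓ + 4).choose 3 ≤ n + 1 := by
  let e : Fin (ℓ + 3) → ℕ := fun i => if i = 0 then 2 else 1
  have he : ∀ i, 1 ≤ e i := fun i => by simp only [e]; split_ifs <;> norm_num
  refine ⟨_, ⟨ℓ + 3, e, by omega, le_rfl, he, ?_, rfl⟩, ?_⟩
  · have : ∀ i, e i = 1 + if i = 0 then 1 else 0 := fun i => by
      simp only [e]; split_ifs <;> norm_num
    simp only [this, sum_add_distrib]
    simp
  · have h1 : ∀ T ∈ (univ : Finset (Fin (ℓ + 3))).powersetCard 3,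
        (1 + if {0} ⊆ T then 1 else 0) ≤ ramsey T (fun i => e i + 1) - 1 := by
      intro T hT
      have hT3 := (mem_powersetCard.1 hT).2
      split_ifs with h
      · have := lt_ramsey_of_mem T hT3.le e (fun i _ => he i) (singleton_subset_iff.1 h)
        simp only [e, if_true] at this ⊢
        omega
      · obtain ⟨j, hj⟩ := card_pos.1 (show 0 < T.card by omega)
        have := lt_ramsey_of_mem T hT3.le e (fun i _ => he i) hj
        have := he j
        omega
    have h2 := sum_le_sum h1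
    rw [sum_add_distrib, ← card_filter,
      card_filter_powersetCard_subset _ _ _ (subset_univ _) (by simp)] at h2
    simp only [sum_const, card_powersetCard, card_univ, Fintype.card_fin, smul_eq_mul, mul_one,
      card_singleton] at h2
    have e1 : (ℓ + 4).choose 3 = (ℓ + 3).choose 2 + (ℓ + 3).choose 3 := Nat.choose_succ_succ' _ _
    have e2 : (ℓ + 3).choose 2 = (ℓ + 2).choose 1 + (ℓ + 2).choose 2 := Nat.choose_succ_succ' _ _
    rw [Nat.choose_one_right] at e2
    have e3 : (ℓ + 3 - 1).choose (3 - 1) = (ℓ + 2).choose 2 := rfl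
    omega

lemma exists_value_pow (ℓ : ℕ) (hℓ : 2 ≤ ℓ) : ∃ n ∈ ramseyValues ℓ, 3 ^ ℓ ≤ n ^ 6 := by
  set a := (ℓ + 4) / 3 with ha
  let e : Fin 3 → ℕ := ![a, a, ℓ + 4 - 2 * a]
  have he : ∀ i, a ≤ e i := by
    intro i; fin_cases i <;> simp [e]; omega
  have ha2 : 2 ≤ a := by omega
  refine ⟨_, ⟨3, e, le_rfl, by omega, fun i => by have := he i; omega, ?_, rfl⟩, ?_⟩
  · simp [e, Fin.sum_univ_three]; omega
  · have h1 : (univ : Finset (Fin 3)).powersetCard 3 = {univ} := powersetCard_self univ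
    rw [h1, sum_singleton]
    have h2 := lt_ramsey univ (by simp) e (not_arrows_of_sq_le a (Nat.sqrt (3 ^ a)) ha2
      (Nat.sqrt_le' _) (fun i => e i + 1) (fun i => by have := he i; omega))
    have h3 : 3 - 2 + (ramsey univ (fun i => e i + 1) - 1) = ramsey univ (fun i => e i + 1) := by
      omega
    rw [h3]
    have h4 : 3 ^ a ≤ (ramsey univ (fun i => e i + 1)) ^ 2 :=
      (Nat.lt_succ_sqrt' _).le.trans (Nat.pow_le_pow_left h2 2)
    calc 3 ^ ℓ ≤ 3 ^ (a * 3) := Nat.pow_le_pow_right (by norm_num) (by omega)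
      _ = (3 ^ a) ^ 3 := pow_mul _ _ _
      _ ≤ ((ramsey univ (fun i => e i + 1)) ^ 2) ^ 3 := Nat.pow_le_pow_left h4 3
      _ = _ := by rw [← pow_mul]

theorem threshold (ℓ : ℕ) : ∃ s₀ : ℕ,
    IsLeast {s₁ : ℕ | 0 < s₁ ∧ ∀ s, s₁ ≤ s → SigmaEq (2 * s + 1) ((s + 1) ^ 2 + ℓ) (s + 2)} s₀ ∧
    IsGreatest (ramseyValues ℓ) s₀ ∧ 3 ^ ℓ ≤ s₀ ^ 6 ∧ s₀ ≤ 3 ^ (ℓ + 5) ∧
    (ℓ ≤ 3 → s₀ + 1 = (ℓ + 4).choose 3) := by
  obtain ⟨n0, hn0, hn0'⟩ := exists_value_ge ℓ
  have hbdd : BddAbove (ramseyValues ℓ) := ⟨_, fun n hn => value_le hn⟩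
  have hmem : sSup (ramseyValues ℓ) ∈ ramseyValues ℓ := Nat.sSup_mem ⟨n0, hn0⟩ hbdd
  have hub : ∀ n ∈ ramseyValues ℓ, n ≤ sSup (ramseyValues ℓ) := fun n hn => le_csSup hbdd hn
  set s₀ := sSup (ramseyValues ℓ) with hs₀
  have h4 : 4 ≤ (ℓ + 4).choose 3 := Nat.choose_le_choose 3 (show 4 ≤ ℓ + 4 by omega)
  have hn0s := hub n0 hn0
  have h3 : 3 ≤ s₀ := by omega
  refine ⟨s₀, ⟨⟨by omega, fun s hs => ⟨exists_array_two s _ (by omega), ?_⟩⟩, ?_⟩,
    ⟨hmem, hub⟩, ?_, value_le hmem, fun hℓ => ?_⟩
  · rintro v ⟨A, hA⟩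
    by_contra hv
    obtain ⟨s, rfl⟩ : ∃ s', s = s' + 1 := ⟨s - 1, by omega⟩
    obtain ⟨key, h1, h2⟩ := array_to_core (w := s + 4) A hA (by omega) (by nlinarith)
    rcases upper key h1 s ℓ h2 (by simp) (by simp) with ⟨k, e, a1, a2, a3, a4, a5⟩ | h
    · have := hub _ ⟨k, e, a1, a2, a3, a4, rfl⟩
      omega
    · omega
  · rintro s₁ ⟨-, hs₁⟩
    by_contra hlt
    obtain ⟨k, e, a1, a2, a3, a4, a5⟩ := hmem
    obtain ⟨i1, hi1⟩ : ∃ i, 2 ≤ e i := by
      by_contra hc
      push Not at hc
      have : ∑ i, e i ≤ univ.card • 1 :=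
        sum_le_card_nsmul univ e 1 (fun i _ => by have := hc i; omega)
      simp only [card_univ, Fintype.card_fin, smul_eq_mul] at this
      omega
    obtain ⟨s, hs⟩ : ∃ s, s₀ = s + 2 := ⟨s₀ - 2, by omega⟩
    have h5 := exists_array_three e a1 a3 i1 hi1 (s + 1) ((s + 1 + 1) ^ 2 + ℓ) (by omega)
      (by omega) (by rw [a4, Nat.add_sub_cancel]; nlinarith)
    have h6 := (hs₁ (s + 1) (by omega)).2 h5
    omega
  · by_cases hℓ : 2 ≤ ℓ
    · obtain ⟨n, hn, hn'⟩ := exists_value_pow ℓ hℓ
      exact hn'.trans (Nat.pow_le_pow_left (hub n hn) 6)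
    · exact (Nat.pow_le_pow_right (by norm_num) (by omega)).trans (Nat.pow_le_pow_left h3 6)
  · have := small_values hℓ hmem
    omega

end Pool.Agent.MP_cb8ad4_co

end
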